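import Mathlib

set_option autoImplicit false

open SimpleGraph

namespace Pool.Agent.Helper75_Viz

variable {W : Type*} {κ : Type*}

/-- `c` is a proper edge colouring of `H`. -/
def Proper (H : SimpleGraph W) (c : Sym2 W → κ) : Prop :=
  ∀ u v w, H.Adj u v → H.Adj u w → c s(u, v) = c s(u, w) → v = w

/-- The colour `a` is missing at the vertex `v`. -/
def Miss (H : SimpleGraph W) (c : Sym2 W → κ) (v : W) (a : κ) : Prop :=
  ∀ w, H.Adj v w → c s(v, w) ≠ a

lemma Proper.mono {H H' : SimpleGraph W} {c : Sym2 W → κ} (h : Proper H c) (hle : H' ≤ H) :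
    Proper H' c := fun u v w h1 h2 h3 => h u v w (hle h1) (hle h2) h3

lemma Miss.mono {H H' : SimpleGraph W} {c : Sym2 W → κ} {v : W} {a : κ} (h : Miss H c v a)
    (hle : H' ≤ H) : Miss H' c v a := fun w h1 => h w (hle h1)

/-- If fewer than `card κ` edges are incident with `v`, some colour is missing at `v`. -/
lemma exists_miss [Finite W] [Fintype κ] (H : SimpleGraph W) (c : Sym2 W → κ) (v : W)
    (h : (H.neighborSet v).ncard < Fintype.card κ) : ∃ a, Miss H c v a := by
  classical
  by_contra hcon
  push Not at hcon
  have h1 : ((fun w => c s(v, w)) '' H.neighborSet v) = Set.univ := by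
    ext a
    simp only [Set.mem_image, mem_neighborSet, Set.mem_univ, iff_true]
    have := hcon a
    unfold Miss at this
    push Not at this
    exact this
  have h2 := Set.ncard_image_le (f := fun w => c s(v, w)) (s := H.neighborSet v) (Set.toFinite _)
  rw [h1, Set.ncard_univ, Nat.card_eq_fintype_card] at h2
  omega

/-- In a finite graph of maximum degree two, no component has three vertices of degree at most
one. -/
lemma not_three [Finite W] (K : SimpleGraph W) (hK : ∀ v, (K.neighborSet v).ncard ≤ 2)
    {a b d : W} (ha : (K.neighborSet a).ncard ≤ 1) (hb : (K.neighborSet b).ncard ≤ 1)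
    (hd : (K.neighborSet d).ncard ≤ 1) (hab : a ≠ b) (had : a ≠ d) (hbd : b ≠ d) :
    ¬ K.Reachable a b ∨ ¬ K.Reachable a d := by
  classical
  have := Fintype.ofFinite W
  by_contra hcon
  push Not at hcon
  set C := K.connectedComponentMk a with hC
  have h1 := (ConnectedComponent.connected_toSimpleGraph C).card_vert_le_card_edgeSet_add_one
  have h2 := C.toSimpleGraph.sum_degrees_eq_twice_card_edges
  have h3 : ∀ v : C, C.toSimpleGraph.degree v = (K.neighborSet (v : W)).ncard := by
    intro v
    rw [← SimpleGraph.card_neighborSet_eq_degree, ← Nat.card_eq_fintype_card,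
      Nat.card_coe_set_eq]
    rw [← Set.ncard_image_of_injective _ Subtype.val_injective]
    congr 1
    ext w
    constructor
    · rintro ⟨w', hw', rfl⟩
      exact hw'
    · intro hw
      have hwC : w ∈ C := by
        have hv : K.connectedComponentMk (v : W) = C := v.2
        have hw2 : K.Adj (v : W) w := hw
        show K.connectedComponentMk w = C
        rw [← hv]
        exact (ConnectedComponent.sound hw2.reachable).symm
      exact ⟨⟨w, hwC⟩, hw, rfl⟩
  have haC : a ∈ C := rfl
  have hbC : b ∈ C := (ConnectedComponent.sound hcon.1).symm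
  have hdC : d ∈ C := (ConnectedComponent.sound hcon.2).symm
  simp only [h3] at h2
  have h4 : Nat.card C.toSimpleGraph.edgeSet = C.toSimpleGraph.edgeFinset.card := by
    rw [Nat.card_eq_fintype_card, edgeFinset_card]
  have h5 : (∑ v : C, (K.neighborSet (v : W)).ncard) + 3 ≤ 2 * Fintype.card C := by
    have h6 : ∑ v : C, (if v ∈ ({⟨a, haC⟩, ⟨b, hbC⟩, ⟨d, hdC⟩} : Finset C) then 1 else 0) = 3 := by
      rw [Finset.sum_ite_mem, Finset.univ_inter, Finset.sum_const, smul_eq_mul, mul_one]
      rw [Finset.card_insert_of_notMem, Finset.card_insert_of_notMem, Finset.card_singleton]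
      · simp only [Finset.mem_singleton, Subtype.mk.injEq]
        exact hbd
      · simp only [Finset.mem_insert, Finset.mem_singleton, Subtype.mk.injEq, not_or]
        exact ⟨hab, had⟩
    rw [← h6, ← Finset.sum_add_distrib]
    refine le_trans (Finset.sum_le_sum (g := fun _ => 2) ?_) ?_
    · intro v _
      split_ifs with hv
      · simp only [Finset.mem_insert, Finset.mem_singleton] at hv
        rcases hv with rfl | rfl | rfl
        · simp only; omega
        · simp only; omega
        · simp only; omega
      · have := hK v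
        omega
    · rw [Finset.sum_const, smul_eq_mul, Finset.card_univ, mul_comm]
  rw [Nat.card_eq_fintype_card, h4] at h1
  omega

/-- The subgraph of the edges coloured `α` or `β`. -/
def Two (H : SimpleGraph W) (c : Sym2 W → κ) (α β : κ) : SimpleGraph W where
  Adj u v := H.Adj u v ∧ (c s(u, v) = α ∨ c s(u, v) = β)
  symm := ⟨fun u v h => ⟨h.1.symm, by rw [Sym2.eq_swap]; exact h.2⟩⟩
  loopless := ⟨fun u h => H.loopless.irrefl u h.1⟩

lemma two_deg [Finite W] {H : SimpleGraph W} {c : Sym2 W → κ} (hc : Proper H c) (α β : κ) (v : W) :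
    ((Two H c α β).neighborSet v).ncard ≤ 2 := by
  classical
  have h1 : ((Two H c α β).neighborSet v).ncard ≤ ({α, β} : Set κ).ncard := by
    refine Set.ncard_le_ncard_of_injOn (fun w => c s(v, w)) ?_ ?_ (Set.toFinite _)
    · intro w hw
      exact hw.2
    · intro w hw w' hw' h
      exact hc v w w' hw.1 hw'.1 h
  refine le_trans h1 (le_trans (Set.ncard_insert_le _ _) ?_)
  simp

lemma two_deg_one [Finite W] {H : SimpleGraph W} {c : Sym2 W → κ} (hc : Proper H c) {α β : κ}
    {v : W} (hv : Miss H c v α ∨ Miss H c v β) :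
    ((Two H c α β).neighborSet v).ncard ≤ 1 := by
  classical
  rcases hv with hv | hv
  · have h1 : ((Two H c α β).neighborSet v).ncard ≤ ({β} : Set κ).ncard := by
      refine Set.ncard_le_ncard_of_injOn (fun w => c s(v, w)) ?_ ?_ (Set.toFinite _)
      · intro w hw
        rcases hw.2 with h | h
        · exact absurd h (hv w hw.1)
        · exact h
      · intro w hw w' hw' h
        exact hc v w w' hw.1 hw'.1 h
    simpa using h1
  · have h1 : ((Two H c α β).neighborSet v).ncard ≤ ({α} : Set κ).ncard := by
      refine Set.ncard_le_ncard_of_injOn (fun w => c s(v, w)) ?_ ?_ (Set.toFinite _)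
      · intro w hw
        rcases hw.2 with h | h
        · exact h
        · exact absurd h (hv w hw.1)
      · intro w hw w' hw' h
        exact hc v w w' hw.1 hw'.1 h
    simpa using h1

variable [DecidableEq κ]

open Classical in
/-- The permutation of the colours applied at the vertex `u`. -/
noncomputable def sig (H : SimpleGraph W) (c : Sym2 W → κ) (α β : κ) (x u : W) : κ → κ :=
  if (Two H c α β).Reachable x u then Equiv.swap α β else id

open Classical in
/-- The colouring obtained by exchanging `α` and `β` on the two-coloured component of `x`. -/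
noncomputable def kempe (H : SimpleGraph W) (c : Sym2 W → κ) (α β : κ) (x : W) : Sym2 W → κ :=
  fun e => if ∃ v ∈ e, (Two H c α β).Reachable x v then Equiv.swap α β (c e) else c e

lemma sig_sig (H : SimpleGraph W) (c : Sym2 W → κ) (α β : κ) (x u : W) (a : κ) :
    sig H c α β x u (sig H c α β x u a) = a := by
  unfold sig
  split_ifs
  · simp
  · rfl

lemma sig_inj (H : SimpleGraph W) (c : Sym2 W → κ) (α β : κ) (x u : W) {a b : κ}
    (h : sig H c α β x u a = sig H c α β x u b) : a = b := by
  rw [← sig_sig H c α β x u a, h, sig_sig]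

lemma sig_of_ne (H : SimpleGraph W) (c : Sym2 W → κ) (α β : κ) (x u : W) {a : κ}
    (h1 : a ≠ α) (h2 : a ≠ β) : sig H c α β x u a = a := by
  unfold sig
  split_ifs
  · exact Equiv.swap_apply_of_ne_of_ne h1 h2
  · rfl

lemma sig_of_reach {H : SimpleGraph W} {c : Sym2 W → κ} {α β : κ} {x u : W}
    (h : (Two H c α β).Reachable x u) : sig H c α β x u β = α ∧ sig H c α β x u α = β := by
  unfold sig
  rw [if_pos h]
  simp

lemma sig_of_not_reach {H : SimpleGraph W} {c : Sym2 W → κ} {α β : κ} {x u : W}
    (h : ¬ (Two H c α β).Reachable x u) (a : κ) : sig H c α β x u a = a := by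
  unfold sig
  rw [if_neg h]
  rfl

lemma kempe_apply {H : SimpleGraph W} {c : Sym2 W → κ} {α β : κ} {x u v : W} (h : H.Adj u v) :
    kempe H c α β x s(u, v) = sig H c α β x u (c s(u, v)) := by
  unfold kempe
  by_cases hu : (Two H c α β).Reachable x u
  · rw [if_pos ⟨u, by simp, hu⟩]
    unfold sig
    rw [if_pos hu]
  · by_cases hv : (Two H c α β).Reachable x v
    · rw [if_pos ⟨v, by simp, hv⟩, sig_of_not_reach hu]
      refine Equiv.swap_apply_of_ne_of_ne ?_ ?_
      · intro hc
        refine hu (hv.trans (Adj.reachable ?_))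
        exact ⟨h.symm, by rw [Sym2.eq_swap]; exact Or.inl hc⟩
      · intro hc
        refine hu (hv.trans (Adj.reachable ?_))
        exact ⟨h.symm, by rw [Sym2.eq_swap]; exact Or.inr hc⟩
    · rw [if_neg, sig_of_not_reach hu]
      rintro ⟨w, hw, hw'⟩
      rw [Sym2.mem_iff] at hw
      rcases hw with rfl | rfl
      · exact hu hw'
      · exact hv hw'

lemma kempe_proper {H : SimpleGraph W} {c : Sym2 W → κ} (hc : Proper H c) (α β : κ) (x : W) :
    Proper H (kempe H c α β x) := by
  intro u v w huv huw h
  rw [kempe_apply huv, kempe_apply huw] at h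
  exact hc u v w huv huw (sig_inj _ _ _ _ _ _ h)

lemma kempe_miss {H : SimpleGraph W} {c : Sym2 W → κ} {α β : κ} {x v : W} {a : κ}
    (h : Miss H c v (sig H c α β x v a)) : Miss H (kempe H c α β x) v a := by
  intro w hw h'
  rw [kempe_apply hw] at h'
  apply h w hw
  rw [← h', sig_sig]

end Pool.Agent.Helper75_Viz
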