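import Mathlib
import Pool.Agent.Helper75_Viz.Kempe

set_option autoImplicit false

open SimpleGraph

namespace Pool.Agent.Helper75_Viz

variable {W : Type*} {κ : Type*}

lemma sym2_right {a b d : W} (h : s(a, b) = s(a, d)) : b = d := by
  rw [Sym2.eq_iff] at h
  rcases h with h | h
  · exact h.2
  · rw [h.2, h.1]

lemma adj_del {G : SimpleGraph W} {e : Sym2 W} {u v : W} :
    (G.deleteEdges {e}).Adj u v ↔ G.Adj u v ∧ s(u, v) ≠ e := by
  simp [deleteEdges_adj]

/-- Colouring one more edge with a colour missing at both ends. -/
lemma proper_update [DecidableEq W] {G : SimpleGraph W} {x y : W} {c : Sym2 W → κ} {β : κ}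
    (hc : Proper (G.deleteEdges {s(x, y)}) c)
    (hx : Miss (G.deleteEdges {s(x, y)}) c x β) (hy : Miss (G.deleteEdges {s(x, y)}) c y β) :
    Proper G (Function.update c s(x, y) β) := by
  have key : ∀ u v w, G.Adj u v → G.Adj u w → s(u, v) = s(x, y) → s(u, w) ≠ s(x, y) →
      β ≠ c s(u, w) := by
    intro u v w huv huw h1 h2 h3
    have hu : u = x ∨ u = y := by
      have : u ∈ s(x, y) := by rw [← h1]; simp
      simpa using this
    rcases hu with rfl | rfl
    · exact hx w (adj_del.2 ⟨huw, h2⟩) h3.symm
    · exact hy w (adj_del.2 ⟨huw, h2⟩) h3.symm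
  intro u v w huv huw h
  by_cases h1 : s(u, v) = s(x, y)
  · by_cases h2 : s(u, w) = s(x, y)
    · rw [← h2] at h1
      exact sym2_right h1
    · rw [h1, Function.update_self, Function.update_of_ne h2] at h
      exact absurd h (key u v w huv huw h1 h2)
  · by_cases h2 : s(u, w) = s(x, y)
    · rw [h2, Function.update_self, Function.update_of_ne h1] at h
      exact absurd h.symm (key u w v huw huv h2 h1)
    · rw [Function.update_of_ne h1, Function.update_of_ne h2] at h
      exact hc u v w (adj_del.2 ⟨huv, h1⟩) (adj_del.2 ⟨huw, h2⟩) h

/-- Shifting a fan. -/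
lemma shift [DecidableEq W] {G : SimpleGraph W} {x : W} (m : ℕ) :
    ∀ (y : ℕ → W) (c : Sym2 W → κ) (β : κ),
    Proper (G.deleteEdges {s(x, y 0)}) c →
    (∀ i ≤ m, G.Adj x (y i)) →
    (∀ i ≤ m, ∀ j ≤ m, y i = y j → i = j) →
    (∀ i < m, Miss (G.deleteEdges {s(x, y 0)}) c (y i) (c s(x, y (i + 1)))) →
    Miss (G.deleteEdges {s(x, y 0)}) c x β →
    Miss (G.deleteEdges {s(x, y 0)}) c (y m) β →
    ∃ c' : Sym2 W → κ, Proper G c' := by
  induction m with
  | zero =>
    intro y c β hc _ _ _ hx hy
    exact ⟨_, proper_update hc hx hy⟩
  | succ m ih =>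
    intro y c β hc hadj hinj hmiss hx hy
    have hne : ∀ i, 1 ≤ i → i ≤ m + 1 → y i ≠ y 0 := by
      intro i h1 h2 h3
      have := hinj i h2 0 (by omega) h3
      omega
    have hxne : ∀ i ≤ m + 1, y i ≠ x := fun i hi h => (hadj i hi).ne h.symm
    have h01 : s(x, y 1) ≠ s(x, y 0) := by
      intro h
      exact hne 1 le_rfl (by omega) (sym2_right h)
    have hadj1 : (G.deleteEdges {s(x, y 0)}).Adj x (y 1) :=
      adj_del.2 ⟨hadj 1 (by omega), h01⟩
    have hle : ((G.deleteEdges {s(x, y 1)}).deleteEdges {s(x, y 0)}) ≤
        (G.deleteEdges {s(x, y 0)}) := by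
      intro u v h
      rw [adj_del, adj_del] at h
      exact adj_del.2 ⟨h.1.1, h.2⟩
    set c1 := Function.update c s(x, y 0) (c s(x, y 1)) with hc1
    have hP1 : Proper (G.deleteEdges {s(x, y 1)}) c1 := by
      refine proper_update (hc.mono hle) ?_ ?_
      · intro w hw h
        rw [adj_del, adj_del] at hw
        have h1 := hc x w (y 1) (adj_del.2 ⟨hw.1.1, hw.2⟩) hadj1 h
        rw [h1] at hw
        exact hw.1.2 rfl
      · exact (hmiss 0 (by omega)).mono hle
    have hc1e : ∀ v w, v ≠ x → v ≠ y 0 → c1 s(v, w) = c s(v, w) := by
      intro v w h1 h2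
      rw [hc1, Function.update_of_ne]
      intro h
      have : v ∈ s(x, y 0) := by rw [← h]; simp
      simp at this
      tauto
    have hc1x : ∀ i, 1 ≤ i → i ≤ m + 1 → c1 s(x, y i) = c s(x, y i) := by
      intro i h1 h2
      rw [Sym2.eq_swap]
      exact hc1e _ _ (hxne i h2) (hne i h1 h2)
    have hMs : ∀ i a, 1 ≤ i → i ≤ m + 1 → Miss (G.deleteEdges {s(x, y 0)}) c (y i) a →
        Miss (G.deleteEdges {s(x, y 1)}) c1 (y i) a := by
      intro i a h1 h2 h3 w hw
      rw [hc1e _ _ (hxne i h2) (hne i h1 h2)]
      refine h3 w (adj_del.2 ⟨(adj_del.1 hw).1, ?_⟩)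
      intro h
      have : y i ∈ s(x, y 0) := by rw [← h]; simp
      simp only [Sym2.mem_iff] at this
      rcases this with h4 | h4
      · exact hxne i h2 h4
      · exact hne i h1 h2 h4
    refine ih (fun i => y (i + 1)) c1 β hP1 (fun i hi => hadj (i + 1) (by omega)) ?_ ?_ ?_ ?_
    · intro i hi j hj h
      have := hinj (i + 1) (by omega) (j + 1) (by omega) h
      omega
    · intro i hi
      rw [hc1x (i + 1 + 1) (by omega) (by omega)]
      exact hMs (i + 1) _ (by omega) (by omega) (hmiss (i + 1) (by omega))
    · intro w hw
      by_cases h : s(x, w) = s(x, y 0)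
      · rw [h, hc1, Function.update_self]
        exact hx (y 1) hadj1
      · rw [hc1, Function.update_of_ne h]
        exact hx w (adj_del.2 ⟨(adj_del.1 hw).1, h⟩)
    · exact hMs (m + 1) β (by omega) le_rfl hy

/-- The fan lemma: if `x` misses a colour and every neighbour of `x` misses a colour, then the
missing edge can be coloured. -/
lemma fan [Finite W] {G : SimpleGraph W} {x y₀ : W} {c : Sym2 W → κ}
    (hadj₀ : G.Adj x y₀) (hc : Proper (G.deleteEdges {s(x, y₀)}) c)
    (hx : ∃ α, Miss (G.deleteEdges {s(x, y₀)}) c x α)
    (hn : ∀ z, G.Adj x z → ∃ β, Miss (G.deleteEdges {s(x, y₀)}) c z β) :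
    ∃ c' : Sym2 W → κ, Proper G c' := by
  classical
  obtain ⟨α, hα⟩ := hx
  have main : ∀ (n m : ℕ) (y : ℕ → W), Nat.card W ≤ n + m → y 0 = y₀ →
      (∀ i ≤ m, G.Adj x (y i)) →
      (∀ i ≤ m, ∀ j ≤ m, y i = y j → i = j) →
      (∀ i < m, Miss (G.deleteEdges {s(x, y₀)}) c (y i) (c s(x, y (i + 1)))) →
      ∃ c' : Sym2 W → κ, Proper G c' := by
    intro n
    induction n with
    | zero =>
      intro m y hm _ _ hinj _
      exfalso
      have h1 : Function.Injective (fun i : Fin (m + 1) => y i) := by
        intro i j h
        have := hinj i (by omega) j (by omega) h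
        exact Fin.ext this
      have h2 := Nat.card_le_card_of_injective _ h1
      rw [Nat.card_fin] at h2
      omega
    | succ n ih =>
      intro m y hm hy0 hadj hinj hmiss
      subst hy0
      obtain ⟨β, hβ⟩ := hn (y m) (hadj m le_rfl)
      by_cases hxβ : Miss (G.deleteEdges {s(x, y 0)}) c x β
      · exact shift m y c β hc hadj hinj hmiss hxβ hβ
      unfold Miss at hxβ
      push Not at hxβ
      obtain ⟨z, hz, hzβ⟩ := hxβ
      by_cases hzy : ∃ i, i ≤ m ∧ y i = z
      · -- Kempe chain argument
        obtain ⟨i, him, rfl⟩ := hzy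
        have hi0 : i ≠ 0 := by
          rintro rfl
          exact (adj_del.1 hz).2 rfl
        have him' : i ≠ m := by
          rintro rfl
          exact hβ x hz.symm (by rw [Sym2.eq_swap]; exact hzβ)
        set H := G.deleteEdges {s(x, y 0)} with hH
        obtain ⟨i, rfl⟩ : ∃ i', i = i' + 1 := ⟨i - 1, by omega⟩
        have hαβ : α ≠ β := fun h => hα _ hz (by rw [h]; exact hzβ)
        have hMi : Miss H c (y i) β := by
          have := hmiss i (by omega)
          rwa [hzβ] at this
        have hd2 := two_deg hc α β
        have hx1 : ((Two H c α β).neighborSet x).ncard ≤ 1 := two_deg_one hc (Or.inl hα)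
        have hi1 : ((Two H c α β).neighborSet (y i)).ncard ≤ 1 := two_deg_one hc (Or.inr hMi)
        have hm1 : ((Two H c α β).neighborSet (y m)).ncard ≤ 1 := two_deg_one hc (Or.inr hβ)
        have hxi : x ≠ y i := (hadj i (by omega)).ne
        have hxm : x ≠ y m := (hadj m le_rfl).ne
        have hyim : y i ≠ y m := by
          intro h
          have := hinj i (by omega) m le_rfl h
          omega
        have hadjH : ∀ j, 1 ≤ j → j ≤ m → H.Adj x (y j) := by
          intro j h1 h2
          refine adj_del.2 ⟨hadj j h2, ?_⟩
          intro h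
          have h3 : y j = y 0 := sym2_right h
          have := hinj j h2 0 (by omega) h3
          omega
        -- colours of the other fan edges
        have hneα : ∀ j, 1 ≤ j → j ≤ m → c s(x, y j) ≠ α := fun j h1 h2 => hα _ (hadjH j h1 h2)
        have hneβ : ∀ j, 1 ≤ j → j ≤ m → j ≠ i + 1 → c s(x, y j) ≠ β := by
          intro j h1 h2 h3 h4
          apply h3
          refine hinj j h2 (i + 1) him ?_
          exact hc x _ _ (hadjH j h1 h2) hz (by rw [h4, hzβ])
        have hKx : ∀ j, 1 ≤ j → j ≤ m → j ≠ i + 1 →
            kempe H c α β x s(x, y j) = c s(x, y j) := by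
          intro j h1 h2 h3
          rw [kempe_apply (hadjH j h1 h2)]
          exact sig_of_ne _ _ _ _ _ _ (hneα j h1 h2) (hneβ j h1 h2 h3)
        have hKM : ∀ j < m, j ≠ i →
            Miss H (kempe H c α β x) (y j) (kempe H c α β x s(x, y (j + 1))) := by
          intro j h1 h2
          rw [hKx (j + 1) (by omega) (by omega) (by omega)]
          apply kempe_miss
          rw [sig_of_ne _ _ _ _ _ _ (hneα (j + 1) (by omega) (by omega))
            (hneβ (j + 1) (by omega) (by omega) (by omega))]
          exact hmiss j h1
        have hrx : (Two H c α β).Reachable x x := Reachable.refl x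
        have hxK : Miss H (kempe H c α β x) x β := by
          apply kempe_miss
          rw [(sig_of_reach hrx).1]
          exact hα
        by_cases hri : (Two H c α β).Reachable x (y i)
        · have hrm : ¬ (Two H c α β).Reachable x (y m) := by
            rcases not_three _ hd2 hx1 hi1 hm1 hxi hxm hyim with h | h
            · exact absurd hri h
            · exact h
          refine shift m y (kempe H c α β x) β (kempe_proper hc α β x) hadj hinj ?_ hxK ?_
          · intro j hj
            by_cases hji : j = i
            · subst hji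
              rw [kempe_apply hz, hzβ, (sig_of_reach hrx).1]
              apply kempe_miss
              rw [(sig_of_reach hri).2]
              exact hMi
            · exact hKM j hj hji
          · apply kempe_miss
            rw [sig_of_not_reach hrm]
            exact hβ
        · refine shift i y (kempe H c α β x) β (kempe_proper hc α β x)
            (fun j hj => hadj j (by omega)) (fun j hj k hk => hinj j (by omega) k (by omega))
            (fun j hj => hKM j (by omega) (by omega)) hxK ?_
          apply kempe_miss
          rw [sig_of_not_reach hri]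
          exact hMi
      · push Not at hzy
        have hupd : ∀ i ≤ m, Function.update y (m + 1) z i = y i := by
          intro i hi
          rw [Function.update_of_ne (by omega)]
        refine ih (m + 1) (Function.update y (m + 1) z) (by omega) ?_ ?_ ?_ ?_
        · rw [hupd 0 (by omega)]
        · intro i hi
          by_cases h : i = m + 1
          · subst h
            rw [Function.update_self]
            exact (adj_del.1 hz).1
          · rw [hupd i (by omega)]
            exact hadj i (by omega)
        · intro i hi j hj h
          by_cases h1 : i = m + 1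
          · by_cases h2 : j = m + 1
            · omega
            · subst h1
              rw [Function.update_self, hupd j (by omega)] at h
              exact absurd h.symm (hzy j (by omega))
          · by_cases h2 : j = m + 1
            · subst h2
              rw [Function.update_self, hupd i (by omega)] at h
              exact absurd h (hzy i (by omega))
            · rw [hupd i (by omega), hupd j (by omega)] at h
              exact hinj i (by omega) j (by omega) h
        · intro i hi
          rw [hupd i (by omega)]
          by_cases h : i = m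
          · subst h
            rw [Function.update_self, hzβ]
            exact hβ
          · rw [hupd (i + 1) (by omega)]
            exact hmiss i (by omega)
  refine main (Nat.card W) 0 (fun _ => y₀) (by omega) rfl (fun i _ => hadj₀) ?_ ?_
  · intro i hi j hj _
    omega
  · intro i hi
    omega

end Pool.Agent.Helper75_Viz
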