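import Mathlib
import Pool.Agent.Helper75_Viz.Fan

set_option autoImplicit false

open SimpleGraph

namespace Pool.Agent.Helper75_Viz

variable {W : Type*} {κ : Type*}

/-- `G` is `k`-degenerate: every nonempty set of vertices contains a vertex with at most `k`
neighbours in the set. -/
def Degen (G : SimpleGraph W) (k : ℕ) : Prop :=
  ∀ S : Set W, S.Nonempty → ∃ v ∈ S, (G.neighborSet v ∩ S).ncard ≤ k

lemma del_le (G : SimpleGraph W) (e : Sym2 W) : G.deleteEdges {e} ≤ G := deleteEdges_le _

lemma nbr_del_ncard_le [Finite W] (G : SimpleGraph W) (e : Sym2 W) (v : W) :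
    ((G.deleteEdges {e}).neighborSet v).ncard ≤ (G.neighborSet v).ncard :=
  Set.ncard_le_ncard (fun _ hw => del_le G e hw) (Set.toFinite _)

lemma nbr_del_ncard_left [Finite W] (G : SimpleGraph W) {x y : W} (h : G.Adj x y) :
    ((G.deleteEdges {s(x, y)}).neighborSet x).ncard < (G.neighborSet x).ncard := by
  refine Set.ncard_lt_ncard ?_ (Set.toFinite _)
  refine ⟨fun _ hw => del_le G _ hw, fun hsub => ?_⟩
  exact (adj_del.1 (hsub h)).2 rfl

lemma nbr_del_ncard_right [Finite W] (G : SimpleGraph W) {x y : W} (h : G.Adj x y) :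
    ((G.deleteEdges {s(x, y)}).neighborSet y).ncard < (G.neighborSet y).ncard := by
  rw [Sym2.eq_swap]
  exact nbr_del_ncard_left G h.symm

lemma edge_del_ncard [Finite W] (G : SimpleGraph W) {x y : W} (h : G.Adj x y) :
    (G.deleteEdges {s(x, y)}).edgeSet.ncard < G.edgeSet.ncard := by
  refine Set.ncard_lt_ncard ?_ (Set.toFinite _)
  rw [edgeSet_deleteEdges]
  refine ⟨Set.sdiff_subset, fun hsub => ?_⟩
  exact (hsub (show s(x, y) ∈ G.edgeSet from h)).2 rfl

/-- Vizing's adjacency lemma in the form: if all degrees are at most the number of colours and the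
vertices whose degree equals the number of colours are pairwise non-adjacent, then there is a proper
edge colouring. -/
lemma vizing_core [Finite W] [Fintype κ] [Nonempty κ] : ∀ (n : ℕ) (G : SimpleGraph W),
    G.edgeSet.ncard ≤ n → (∀ v, (G.neighborSet v).ncard ≤ Fintype.card κ) →
    (∀ v w, G.Adj v w → (G.neighborSet v).ncard = Fintype.card κ →
      (G.neighborSet w).ncard < Fintype.card κ) →
    ∃ c : Sym2 W → κ, Proper G c := by
  classical
  intro n
  induction n with
  | zero =>
    intro G hn _ _
    have h0 : G.edgeSet = ∅ := by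
      rw [← Set.ncard_eq_zero (Set.toFinite _)]
      omega
    refine ⟨fun _ => Classical.arbitrary κ, fun u v w huv _ _ => ?_⟩
    have : s(u, v) ∈ G.edgeSet := huv
    rw [h0] at this
    exact this.elim
  | succ n ih =>
    intro G hn hdeg hfull
    have step : ∀ x y₀, G.Adj x y₀ → (∀ z, G.Adj x z → (G.neighborSet z).ncard < Fintype.card κ) →
        ∃ c : Sym2 W → κ, Proper G c := by
      intro x y₀ hxy hz
      obtain ⟨c, hc⟩ := ih (G.deleteEdges {s(x, y₀)}) (by have := edge_del_ncard G hxy; omega)
        (fun v => le_trans (nbr_del_ncard_le _ _ _) (hdeg v)) (by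
          intro v w hvw hv
          have h1 := nbr_del_ncard_le G s(x, y₀) v
          have h2 := hdeg v
          have h3 := hfull v w (adj_del.1 hvw).1 (by omega)
          have h4 := nbr_del_ncard_le G s(x, y₀) w
          omega)
      refine fan hxy hc ?_ ?_
      · refine exists_miss _ _ _ (lt_of_lt_of_le (nbr_del_ncard_left G hxy) (hdeg x))
      · intro z hxz
        exact exists_miss _ _ _ (lt_of_le_of_lt (nbr_del_ncard_le _ _ _) (hz z hxz))
    by_cases hx : ∃ x, (G.neighborSet x).ncard = Fintype.card κ
    · obtain ⟨x, hx⟩ := hx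
      have h1 : (G.neighborSet x).Nonempty := by
        rw [← Set.ncard_pos (Set.toFinite _), hx]
        exact Fintype.card_pos
      obtain ⟨y₀, hy⟩ := h1
      exact step x y₀ hy (fun z hz => hfull x z hz hx)
    · push Not at hx
      have hlt : ∀ z, (G.neighborSet z).ncard < Fintype.card κ := fun z =>
        lt_of_le_of_ne (hdeg z) (hx z)
      by_cases he : ∃ x y, G.Adj x y
      · obtain ⟨x, y, hxy⟩ := he
        exact step x y hxy (fun z _ => hlt z)
      · push Not at he
        exact ⟨fun _ => Classical.arbitrary κ, fun u v w huv _ _ => absurd huv (he u v)⟩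

/-- A nonempty graph which is `k`-degenerate has an edge `xy` with `deg y ≤ k` and `x` having at most
`k` neighbours of degree more than `k`. -/
lemma good_edge [Finite W] (G : SimpleGraph W) (k : ℕ) (hG : Degen G k) (he : ∃ x y, G.Adj x y) :
    ∃ x y, G.Adj x y ∧ (G.neighborSet y).ncard ≤ k ∧
      ({z | G.Adj x z ∧ k < (G.neighborSet z).ncard} : Set W).ncard ≤ k := by
  by_cases hS : ({v | k < (G.neighborSet v).ncard} : Set W).Nonempty
  · obtain ⟨x, hx, hxk⟩ := hG _ hS
    have hex : ∃ y, G.Adj x y ∧ (G.neighborSet y).ncard ≤ k := by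
      by_contra hcon
      push Not at hcon
      have : G.neighborSet x ∩ {v | k < (G.neighborSet v).ncard} = G.neighborSet x := by
        refine Set.inter_eq_left.2 (fun z hz => hcon z hz)
      rw [this] at hxk
      have : k < (G.neighborSet x).ncard := hx
      omega
    obtain ⟨y, hxy, hy⟩ := hex
    exact ⟨x, y, hxy, hy, hxk⟩
  · rw [Set.not_nonempty_iff_eq_empty] at hS
    obtain ⟨x, y, hxy⟩ := he
    have hall : ∀ v, (G.neighborSet v).ncard ≤ k := by
      intro v
      by_contra hcon
      have : v ∈ ({v | k < (G.neighborSet v).ncard} : Set W) := by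
        simpa using hcon
      rw [hS] at this
      exact this.elim
    refine ⟨x, y, hxy, hall y, ?_⟩
    exact le_trans (Set.ncard_le_ncard (fun z hz => hz.1) (Set.toFinite _)) (hall x)

lemma Degen.mono [Finite W] {G H : SimpleGraph W} {k : ℕ} (hG : Degen G k) (hle : H ≤ G) :
    Degen H k := by
  intro S hS
  obtain ⟨v, hv, hvk⟩ := hG S hS
  refine ⟨v, hv, le_trans (Set.ncard_le_ncard ?_ (Set.toFinite _)) hvk⟩
  exact fun z hz => ⟨hle hz.1, hz.2⟩

/-- The number of missing colours. -/
lemma miss_card [Finite W] [Fintype κ] (H : SimpleGraph W) (c : Sym2 W → κ) (v : W) :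
    Fintype.card κ ≤ ({a | Miss H c v a} : Set κ).ncard + (H.neighborSet v).ncard := by
  classical
  have h1 : (Set.univ : Set κ) ⊆ {a | Miss H c v a} ∪ (fun w => c s(v, w)) '' H.neighborSet v := by
    intro a _
    by_cases ha : Miss H c v a
    · exact Or.inl ha
    · right
      unfold Miss at ha
      push Not at ha
      exact ha
  have h2 := Set.ncard_le_ncard h1 (Set.toFinite _)
  have h3 := Set.ncard_union_le {a | Miss H c v a} ((fun w => c s(v, w)) '' H.neighborSet v)
  have h4 := Set.ncard_image_le (f := fun w => c s(v, w)) (s := H.neighborSet v) (Set.toFinite _)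
  rw [Set.ncard_univ, Nat.card_eq_fintype_card] at h2
  omega

/-- A `k`-degenerate graph with degrees at most `card κ`, `2 k ≤ card κ`, has a proper edge colouring
with colours `κ`. -/
lemma low_core [Finite W] [Fintype κ] [Nonempty κ] (k : ℕ) (hk : 2 * k ≤ Fintype.card κ) :
    ∀ (n : ℕ) (G : SimpleGraph W), G.edgeSet.ncard ≤ n →
    (∀ v, (G.neighborSet v).ncard ≤ Fintype.card κ) → Degen G k →
    ∃ c : Sym2 W → κ, Proper G c := by
  classical
  intro n
  induction n with
  | zero =>
    intro G hn _ _
    have h0 : G.edgeSet = ∅ := by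
      rw [← Set.ncard_eq_zero (Set.toFinite _)]
      omega
    refine ⟨fun _ => Classical.arbitrary κ, fun u v w huv _ _ => ?_⟩
    have : s(u, v) ∈ G.edgeSet := huv
    rw [h0] at this
    exact this.elim
  | succ n ih =>
    intro G hn hdeg hdg
    by_cases he : ∃ x y, G.Adj x y
    swap
    · push Not at he
      exact ⟨fun _ => Classical.arbitrary κ, fun u v w huv _ _ => absurd huv (he u v)⟩
    obtain ⟨x, y, hxy, hy, hx⟩ := good_edge G k hdg he
    obtain ⟨c, hc⟩ := ih (G.deleteEdges {s(x, y)}) (by have := edge_del_ncard G hxy; omega)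
        (fun v => le_trans (nbr_del_ncard_le _ _ _) (hdeg v)) (hdg.mono (del_le _ _))
    set H := G.deleteEdges {s(x, y)} with hH
    obtain ⟨α, hα⟩ := exists_miss H c x (lt_of_lt_of_le (nbr_del_ncard_left G hxy) (hdeg x))
    by_cases hcom : ∃ β, Miss H c x β ∧ Miss H c y β
    · obtain ⟨β, h1, h2⟩ := hcom
      exact ⟨_, proper_update hc h1 h2⟩
    push Not at hcom
    -- a neighbour `z` of `x` of degree at most `k` with the colour of `xz` missing at `y`
    have hz : ∃ z, H.Adj x z ∧ (G.neighborSet z).ncard ≤ k ∧ Miss H c y (c s(x, z)) := by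
      by_contra hcon
      push Not at hcon
      have h1 : ({a | Miss H c y a} : Set κ) ⊆
          (fun z => c s(x, z)) '' {z | G.Adj x z ∧ k < (G.neighborSet z).ncard} := by
        intro a ha
        have h2 : ¬ Miss H c x a := fun h => hcom a h ha
        unfold Miss at h2
        push Not at h2
        obtain ⟨z, hz, hza⟩ := h2
        refine ⟨z, ⟨(adj_del.1 hz).1, ?_⟩, hza⟩
        by_contra hk'
        exact hcon z hz (by omega) (by rw [hza]; exact ha)
      have h2 := Set.ncard_le_ncard h1 (Set.toFinite _)
      have h3 := Set.ncard_image_le (f := fun z => c s(x, z))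
        (s := {z | G.Adj x z ∧ k < (G.neighborSet z).ncard}) (Set.toFinite _)
      have h4 := miss_card H c y
      have h5 := nbr_del_ncard_right G hxy
      rw [← hH] at h5
      omega
    obtain ⟨z, hxz, hzk, hyz⟩ := hz
    have hβ : ∃ β, Miss H c y β ∧ Miss H c z β := by
      by_contra hcon
      push Not at hcon
      have h1 := miss_card H c y
      have h2 := miss_card H c z
      have h3 : Disjoint ({a | Miss H c y a} : Set κ) {a | Miss H c z a} := by
        rw [Set.disjoint_left]
        exact fun a ha => hcon a ha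
      have h4 := Set.ncard_union_eq h3 (Set.toFinite _) (Set.toFinite _)
      have h5 := Set.ncard_le_ncard (Set.subset_univ ({a | Miss H c y a} ∪ {a | Miss H c z a}))
        (Set.toFinite _)
      rw [Set.ncard_univ, Nat.card_eq_fintype_card] at h5
      have h6 := nbr_del_ncard_right G hxy
      rw [← hH] at h6
      have h7 := nbr_del_ncard_le G s(x, y) z
      rw [← hH] at h7
      omega
    obtain ⟨β, hyβ, hzβ⟩ := hβ
    have hzy : z ≠ y := by
      rintro rfl
      exact (adj_del.1 hxz).2 rfl
    have hαb : c s(x, z) ≠ α := hα z hxz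
    have hβb : c s(x, z) ≠ β := by
      intro h
      exact hzβ x hxz.symm (by rw [Sym2.eq_swap]; exact h)
    have hd2 := two_deg hc α β
    have hx1 : ((Two H c α β).neighborSet x).ncard ≤ 1 := two_deg_one hc (Or.inl hα)
    have hy1 : ((Two H c α β).neighborSet y).ncard ≤ 1 := two_deg_one hc (Or.inr hyβ)
    have hz1 : ((Two H c α β).neighborSet z).ncard ≤ 1 := two_deg_one hc (Or.inr hzβ)
    have hrx : (Two H c α β).Reachable x x := Reachable.refl x
    have hxK : Miss H (kempe H c α β x) x β := by
      apply kempe_miss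
      rw [(sig_of_reach hrx).1]
      exact hα
    rcases not_three _ hd2 hx1 hy1 hz1 hxy.ne hxz.ne hzy.symm with h | h
    · refine ⟨_, proper_update (kempe_proper hc α β x) hxK ?_⟩
      apply kempe_miss
      rw [sig_of_not_reach h]
      exact hyβ
    · refine shift 1 (fun i => if i = 0 then y else z) (kempe H c α β x) β
        (kempe_proper hc α β x) ?_ ?_ ?_ hxK ?_
      · intro i _
        by_cases hi : i = 0
        · simpa [hi] using hxy
        · simpa [hi] using (adj_del.1 hxz).1
      · intro i hi j hj hij
        by_cases h1 : i = 0 <;> by_cases h2 : j = 0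
        · omega
        · simp [h1, h2] at hij
          exact absurd hij.symm hzy
        · simp [h1, h2] at hij
          exact absurd hij hzy
        · omega
      · intro i hi
        have hi0 : i = 0 := by omega
        subst hi0
        show Miss H (kempe H c α β x) y (kempe H c α β x s(x, z))
        rw [kempe_apply hxz, sig_of_ne _ _ _ _ _ _ hαb hβb]
        apply kempe_miss
        rw [sig_of_ne _ _ _ _ _ _ hαb hβb]
        exact hyz
      · show Miss H (kempe H c α β x) z β
        apply kempe_miss
        rw [sig_of_not_reach h]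
        exact hzβ

end Pool.Agent.Helper75_Viz
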