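import Mathlib
import Pool.Agent.Helper14_LA.Core
import Pool.Agent.Helper75_Viz.Core

set_option autoImplicit false

open SimpleGraph Pool.Agent.Helper14_LA

namespace Pool.Agent.Helper75_Viz

/-- Two copies of `G`, where the two copies of every vertex of degree less than `r` are joined. -/
def dbl {V : Type} (G : SimpleGraph V) (r : ℕ) : SimpleGraph (V × Bool) where
  Adj x y := (x.2 = y.2 ∧ G.Adj x.1 y.1) ∨
    (x.2 ≠ y.2 ∧ x.1 = y.1 ∧ (G.neighborSet x.1).ncard < r)
  symm := ⟨fun x y h => by
    rcases h with h | h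
    · exact Or.inl ⟨h.1.symm, h.2.symm⟩
    · exact Or.inr ⟨h.1.symm, h.2.1.symm, by rw [← h.2.1]; exact h.2.2⟩⟩
  loopless := ⟨fun x h => by
    rcases h with h | h
    · exact h.2.ne rfl
    · exact h.1 rfl⟩

lemma dbl_nbr {V : Type} [Finite V] (G : SimpleGraph V) (r : ℕ) (v : V) (b : Bool) :
    ((dbl G r).neighborSet (v, b)).ncard =
      (G.neighborSet v).ncard + if (G.neighborSet v).ncard < r then 1 else 0 := by
  classical
  have h1 : (dbl G r).neighborSet (v, b) = (fun w => (w, b)) '' G.neighborSet v ∪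
      (if (G.neighborSet v).ncard < r then {(v, !b)} else ∅) := by
    ext ⟨w, b'⟩
    simp only [mem_neighborSet, dbl, Set.mem_union, Set.mem_image, Prod.mk.injEq]
    constructor
    · rintro (⟨h1, h2⟩ | ⟨h1, h2, h3⟩)
      · exact Or.inl ⟨w, h2, rfl, h1⟩
      · right
        rw [if_pos h3]
        subst h2
        cases b <;> cases b' <;> simp_all
    · rintro (⟨w', h1, h2, h3⟩ | h)
      · subst h2
        exact Or.inl ⟨h3, h1⟩
      · right
        split_ifs at h with h'
        · simp only [Set.mem_singleton_iff, Prod.mk.injEq] at h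
          refine ⟨?_, h.1.symm, h'⟩
          rw [h.2]
          cases b <;> simp
        · exact h.elim
  rw [h1, Set.ncard_union_eq ?_ (Set.toFinite _) (Set.toFinite _),
    Set.ncard_image_of_injective _ (fun a b h => congrArg Prod.fst h)]
  · congr 1
    split_ifs <;> simp
  · rw [Set.disjoint_left]
    rintro ⟨w, b'⟩ ⟨w', _, h2⟩ h
    split_ifs at h
    · simp only [Prod.mk.injEq] at h2
      simp only [Set.mem_singleton_iff, Prod.mk.injEq] at h
      obtain ⟨_, h3⟩ := h2
      obtain ⟨_, h4⟩ := h
      rw [← h3] at h4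
      cases b <;> simp at h4
    · exact h

/-- Every graph of maximum degree at most `r` is an induced subgraph of an `r`-regular graph. -/
lemma exists_regular (r : ℕ) : ∀ (n : ℕ) (V : Type) [Finite V] (G : SimpleGraph V),
    (∀ v, (G.neighborSet v).ncard ≤ r) → (∀ v, r ≤ (G.neighborSet v).ncard + n) →
    ∃ (W : Type) (_ : Finite W) (H : SimpleGraph W) (f : V ↪ W),
      (∀ w, (H.neighborSet w).ncard = r) ∧ H.comap f = G := by
  intro n
  induction n with
  | zero =>
    intro V _ G h1 h2
    refine ⟨V, inferInstance, G, Function.Embedding.refl V, fun w => ?_, ?_⟩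
    · have := h1 w
      have := h2 w
      omega
    · ext u v
      simp
  | succ n ih =>
    intro V _ G h1 h2
    obtain ⟨W, hW, H, f, hH, hf⟩ := ih (V × Bool) (dbl G r) (by
      rintro ⟨v, b⟩
      rw [dbl_nbr]
      have := h1 v
      split_ifs <;> omega) (by
      rintro ⟨v, b⟩
      rw [dbl_nbr]
      have := h1 v
      have := h2 v
      split_ifs <;> omega)
    refine ⟨W, hW, H, (⟨fun v => (v, false), fun a b h => congrArg Prod.fst h⟩ : V ↪ V × Bool).trans f,
      hH, ?_⟩
    ext u v
    have h3 : H.Adj (f (u, false)) (f (v, false)) ↔ (dbl G r).Adj (u, false) (v, false) := by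
      rw [← hf]
      rfl
    have h4 : (dbl G r).Adj (u, false) (v, false) ↔ G.Adj u v := by
      simp [dbl]
    exact h3.trans h4

/-- A vertex of a graph covered by `k` linear forests has degree at most `2 k`. -/
lemma deg_le_of_coveredBy {V : Type} [Finite V] {G : SimpleGraph V} {k : ℕ} (h : CoveredBy G k)
    (v : V) : (G.neighborSet v).ncard ≤ 2 * k := by
  classical
  obtain ⟨F, hF, hFG⟩ := h
  have h1 : G.neighborSet v ⊆ ⋃ i ∈ (Finset.univ : Finset (Fin k)), (F i).neighborSet v := by
    intro w hw
    rw [← hFG, mem_neighborSet, iSup_adj] at hw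
    obtain ⟨i, hi⟩ := hw
    simp only [Finset.mem_univ, Set.iUnion_true, Set.mem_iUnion]
    exact ⟨i, hi⟩
  refine le_trans (Set.ncard_le_ncard h1 (Set.toFinite _)) ?_
  refine le_trans (Finset.set_ncard_biUnion_le _ _) ?_
  refine le_trans (Finset.sum_le_sum (fun i _ => (hF i).2 v)) ?_
  simp [mul_comm]

end Pool.Agent.Helper75_Viz
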