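import Mathlib
import Pool.Agent.Helper75_Viz.Core

set_option autoImplicit false

open SimpleGraph

namespace Pool.Agent.Helper75_Viz

variable {V : Type*} {κ : Type*}

/-- `c` is a good colouring of `H` with respect to the ordering `pos`: every vertex has at most one
edge of each colour to an earlier vertex, and at most two edges of each colour. -/
def Good (pos : V → ℕ) (H : SimpleGraph V) (c : Sym2 V → κ) : Prop :=
  (∀ v w w', H.Adj v w → H.Adj v w' → pos w < pos v → pos w' < pos v →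
    c s(v, w) = c s(v, w') → w = w') ∧
  (∀ v p q r, H.Adj v p → H.Adj v q → H.Adj v r → c s(v, p) = c s(v, q) →
    c s(v, q) = c s(v, r) → p = q ∨ q = r ∨ p = r)

/-- The colour `β` can be given to the edge `vw` as far as the vertex `v` is concerned. -/
def Av (pos : V → ℕ) (H : SimpleGraph V) (c : Sym2 V → κ) (v w : V) (β : κ) : Prop :=
  (∀ p q, H.Adj v p → H.Adj v q → c s(v, p) = β → c s(v, q) = β → p = q) ∧
  (pos w < pos v → ∀ p, H.Adj v p → pos p < pos v → c s(v, p) ≠ β)

lemma Good.mono {pos : V → ℕ} {H H' : SimpleGraph V} {c : Sym2 V → κ} (h : Good pos H c)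
    (hle : H' ≤ H) : Good pos H' c :=
  ⟨fun v w w' h1 h2 h3 h4 h5 => h.1 v w w' (hle h1) (hle h2) h3 h4 h5,
    fun v p q r h1 h2 h3 h4 h5 => h.2 v p q r (hle h1) (hle h2) (hle h3) h4 h5⟩

lemma Av.mono {pos : V → ℕ} {H H' : SimpleGraph V} {c : Sym2 V → κ} {v w : V} {β : κ}
    (h : Av pos H c v w β) (hle : H' ≤ H) : Av pos H' c v w β :=
  ⟨fun p q h1 h2 h3 h4 => h.1 p q (hle h1) (hle h2) h3 h4,
    fun h0 p h1 h2 => h.2 h0 p (hle h1) h2⟩

lemma Good.congr {pos : V → ℕ} {H : SimpleGraph V} {c c' : Sym2 V → κ} (h : Good pos H c)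
    (hcc : ∀ v w, H.Adj v w → c s(v, w) = c' s(v, w)) : Good pos H c' := by
  refine ⟨fun v w w' h1 h2 h3 h4 h5 => ?_, fun v p q r h1 h2 h3 h4 h5 => ?_⟩
  · rw [← hcc v w h1, ← hcc v w' h2] at h5
    exact h.1 v w w' h1 h2 h3 h4 h5
  · rw [← hcc v p h1, ← hcc v q h2] at h4
    rw [← hcc v q h2, ← hcc v r h3] at h5
    exact h.2 v p q r h1 h2 h3 h4 h5

/-- Colouring one more edge. -/
lemma good_update [DecidableEq V] {pos : V → ℕ} {G : SimpleGraph V} {x y : V} {c : Sym2 V → κ}
    {β : κ} (hne : x ≠ y)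
    (hc : Good pos (G.deleteEdges {s(x, y)}) c)
    (hx : Av pos (G.deleteEdges {s(x, y)}) c x y β)
    (hy : Av pos (G.deleteEdges {s(x, y)}) c y x β) :
    Good pos G (Function.update c s(x, y) β) := by
  -- at an endpoint `a` with other endpoint `b`, all other edges coloured `β` coincide
  have key : ∀ a b, s(a, b) = s(x, y) → Av pos (G.deleteEdges {s(x, y)}) c a b β := by
    intro a b hab
    rw [Sym2.eq_iff] at hab
    rcases hab with ⟨rfl, rfl⟩ | ⟨rfl, rfl⟩
    · exact hx
    · exact hy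
  have hupd : ∀ u v, s(u, v) ≠ s(x, y) → Function.update c s(x, y) β s(u, v) = c s(u, v) :=
    fun u v h => Function.update_of_ne h _ _
  have hupd' : ∀ u v, s(u, v) = s(x, y) → Function.update c s(x, y) β s(u, v) = β := by
    intro u v h
    rw [h, Function.update_self]
  constructor
  · intro v w w' h1 h2 h3 h4 h5
    by_cases e1 : s(v, w) = s(x, y)
    · by_cases e2 : s(v, w') = s(x, y)
      · rw [← e2] at e1
        exact sym2_right e1
      · exfalso
        rw [hupd' _ _ e1, hupd _ _ e2] at h5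
        exact (key v w e1).2 h3 w' (adj_del.2 ⟨h2, e2⟩) h4 h5.symm
    · by_cases e2 : s(v, w') = s(x, y)
      · exfalso
        rw [hupd _ _ e1, hupd' _ _ e2] at h5
        exact (key v w' e2).2 h4 w (adj_del.2 ⟨h1, e1⟩) h3 h5
      · rw [hupd _ _ e1, hupd _ _ e2] at h5
        exact hc.1 v w w' (adj_del.2 ⟨h1, e1⟩) (adj_del.2 ⟨h2, e2⟩) h3 h4 h5
  · intro v p q r h1 h2 h3 h4 h5
    by_cases e1 : s(v, p) = s(x, y)
    · by_cases e2 : s(v, q) = s(x, y)
      · rw [← e2] at e1
        exact Or.inl (sym2_right e1)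
      · by_cases e3 : s(v, r) = s(x, y)
        · rw [← e3] at e1
          exact Or.inr (Or.inr (sym2_right e1))
        · rw [hupd' _ _ e1, hupd _ _ e2] at h4
          rw [hupd _ _ e2, hupd _ _ e3] at h5
          refine Or.inr (Or.inl ((key v p e1).1 q r (adj_del.2 ⟨h2, e2⟩) (adj_del.2 ⟨h3, e3⟩)
            h4.symm ?_))
          rw [← h5, ← h4]
    · by_cases e2 : s(v, q) = s(x, y)
      · by_cases e3 : s(v, r) = s(x, y)
        · rw [← e3] at e2
          exact Or.inr (Or.inl (sym2_right e2))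
        · rw [hupd _ _ e1, hupd' _ _ e2] at h4
          rw [hupd' _ _ e2, hupd _ _ e3] at h5
          exact Or.inr (Or.inr ((key v q e2).1 p r (adj_del.2 ⟨h1, e1⟩) (adj_del.2 ⟨h3, e3⟩)
            h4 h5.symm))
      · by_cases e3 : s(v, r) = s(x, y)
        · rw [hupd _ _ e1, hupd _ _ e2] at h4
          rw [hupd _ _ e2, hupd' _ _ e3] at h5
          refine Or.inl ((key v r e3).1 p q (adj_del.2 ⟨h1, e1⟩) (adj_del.2 ⟨h2, e2⟩) ?_ h5)
          rw [h4, h5]
        · rw [hupd _ _ e1, hupd _ _ e2] at h4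
          rw [hupd _ _ e2, hupd _ _ e3] at h5
          exact hc.2 v p q r (adj_del.2 ⟨h1, e1⟩) (adj_del.2 ⟨h2, e2⟩) (adj_del.2 ⟨h3, e3⟩) h4 h5

/-- Shifting a fan all of whose vertices are on the same side of `x`. -/
lemma good_shift [DecidableEq V] {pos : V → ℕ} {G : SimpleGraph V} {x : V} (m : ℕ) :
    ∀ (y : ℕ → V) (c : Sym2 V → κ) (β : κ),
    Good pos (G.deleteEdges {s(x, y 0)}) c →
    (∀ i ≤ m, G.Adj x (y i)) →
    (∀ i ≤ m, ∀ j ≤ m, y i = y j → i = j) →
    (∀ i ≤ m, (pos (y i) < pos x ↔ pos (y 0) < pos x)) →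
    (∀ i < m, Av pos (G.deleteEdges {s(x, y 0)}) c (y i) x (c s(x, y (i + 1)))) →
    Av pos (G.deleteEdges {s(x, y 0)}) c x (y 0) β →
    Av pos (G.deleteEdges {s(x, y 0)}) c (y m) x β →
    ∃ c' : Sym2 V → κ, Good pos G c' := by
  induction m with
  | zero =>
    intro y c β hc hadj _ _ _ hx hy
    exact ⟨_, good_update (hadj 0 le_rfl).ne hc hx hy⟩
  | succ m ih =>
    intro y c β hc hadj hinj hside hmiss hx hy
    have hne : ∀ i, 1 ≤ i → i ≤ m + 1 → y i ≠ y 0 := by
      intro i h1 h2 h3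
      have := hinj i h2 0 (by omega) h3
      omega
    have hxne : ∀ i ≤ m + 1, y i ≠ x := fun i hi h => (hadj i hi).ne h.symm
    have h01 : s(x, y 1) ≠ s(x, y 0) := by
      intro h
      exact hne 1 le_rfl (by omega) (sym2_right h)
    have hadj1 : (G.deleteEdges {s(x, y 0)}).Adj x (y 1) :=
      adj_del.2 ⟨hadj 1 (by omega), h01⟩
    have hle : ((G.deleteEdges {s(x, y 1)}).deleteEdges {s(x, y 0)}) ≤
        (G.deleteEdges {s(x, y 0)}) := by
      intro u v h
      rw [adj_del, adj_del] at h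
      exact adj_del.2 ⟨h.1.1, h.2⟩
    set c1 := Function.update c s(x, y 0) (c s(x, y 1)) with hc1
    have hP1 : Good pos (G.deleteEdges {s(x, y 1)}) c1 := by
      refine good_update (hadj 0 (by omega)).ne (hc.mono hle) ?_ ?_
      · refine ⟨?_, ?_⟩
        · intro p q h1 h2 h3 h4
          rw [adj_del, adj_del] at h1 h2
          have h5 := hc.2 x p q (y 1) (adj_del.2 ⟨h1.1.1, h1.2⟩) (adj_del.2 ⟨h2.1.1, h2.2⟩)
            hadj1 (h3.trans h4.symm) h4
          rcases h5 with h5 | h5 | h5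
          · exact h5
          · exact absurd (by rw [h5]) h2.1.2
          · exact absurd (by rw [h5]) h1.1.2
        · intro h0 p h1 h2 h3
          rw [adj_del, adj_del] at h1
          have h5 := hc.1 x p (y 1) (adj_del.2 ⟨h1.1.1, h1.2⟩) hadj1 h2
            ((hside 1 (by omega)).2 h0) h3
          exact h1.1.2 (by rw [h5])
      · exact (hmiss 0 (by omega)).mono hle
    have hc1e : ∀ v w, v ≠ x → v ≠ y 0 → c1 s(v, w) = c s(v, w) := by
      intro v w h1 h2
      rw [hc1, Function.update_of_ne]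
      intro h
      have : v ∈ s(x, y 0) := by rw [← h]; simp
      simp at this
      tauto
    have hc1x : ∀ i, 1 ≤ i → i ≤ m + 1 → c1 s(x, y i) = c s(x, y i) := by
      intro i h1 h2
      rw [Sym2.eq_swap]
      exact hc1e _ _ (hxne i h2) (hne i h1 h2)
    have hadjs : ∀ i w, 1 ≤ i → i ≤ m + 1 → (G.deleteEdges {s(x, y 1)}).Adj (y i) w →
        (G.deleteEdges {s(x, y 0)}).Adj (y i) w := by
      intro i w h1 h2 hw
      refine adj_del.2 ⟨(adj_del.1 hw).1, ?_⟩
      intro h
      have : y i ∈ s(x, y 0) := by rw [← h]; simp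
      simp only [Sym2.mem_iff] at this
      rcases this with h4 | h4
      · exact hxne i h2 h4
      · exact hne i h1 h2 h4
    have hMs : ∀ i a, 1 ≤ i → i ≤ m + 1 → Av pos (G.deleteEdges {s(x, y 0)}) c (y i) x a →
        Av pos (G.deleteEdges {s(x, y 1)}) c1 (y i) x a := by
      intro i a h1 h2 h3
      refine ⟨?_, ?_⟩
      · intro p q hp hq hpa hqa
        rw [hc1e _ _ (hxne i h2) (hne i h1 h2)] at hpa hqa
        exact h3.1 p q (hadjs i p h1 h2 hp) (hadjs i q h1 h2 hq) hpa hqa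
      · intro h0 p hp hpp
        rw [hc1e _ _ (hxne i h2) (hne i h1 h2)]
        exact h3.2 h0 p (hadjs i p h1 h2 hp) hpp
    refine ih (fun i => y (i + 1)) c1 β hP1 (fun i hi => hadj (i + 1) (by omega)) ?_ ?_ ?_ ?_ ?_
    · intro i hi j hj h
      have := hinj (i + 1) (by omega) (j + 1) (by omega) h
      omega
    · intro i hi
      rw [hside (i + 1) (by omega), hside (0 + 1) (by omega)]
    · intro i hi
      rw [hc1x (i + 1 + 1) (by omega) (by omega)]
      exact hMs (i + 1) _ (by omega) (by omega) (hmiss (i + 1) (by omega))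
    · -- availability at `x`
      have hcol : ∀ w, (G.deleteEdges {s(x, y 1)}).Adj x w → c1 s(x, w) = β →
          (w = y 0 ∧ c s(x, y 1) = β) ∨
            ((G.deleteEdges {s(x, y 0)}).Adj x w ∧ c s(x, w) = β) := by
        intro w hw hwβ
        by_cases h : s(x, w) = s(x, y 0)
        · left
          refine ⟨sym2_right h, ?_⟩
          rwa [h, hc1, Function.update_self] at hwβ
        · right
          rw [hc1, Function.update_of_ne h] at hwβ
          exact ⟨adj_del.2 ⟨(adj_del.1 hw).1, h⟩, hwβ⟩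
      refine ⟨?_, ?_⟩
      · intro p q hp hq hpβ hqβ
        rcases hcol p hp hpβ with ⟨h1, h1'⟩ | ⟨h1, h1'⟩
        · rcases hcol q hq hqβ with ⟨h2, h2'⟩ | ⟨h2, h2'⟩
          · rw [h1, h2]
          · exfalso
            have h3 := hx.1 (y 1) q hadj1 h2 h1' h2'
            exact (adj_del.1 hq).2 (by rw [h3])
        · rcases hcol q hq hqβ with ⟨h2, h2'⟩ | ⟨h2, h2'⟩
          · exfalso
            have h3 := hx.1 (y 1) p hadj1 h1 h2' h1'
            exact (adj_del.1 hp).2 (by rw [h3])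
          · exact hx.1 p q h1 h2 h1' h2'
      · intro h0 p hp hpp hpβ
        have h0' : pos (y 0) < pos x := (hside 1 (by omega)).1 h0
        rcases hcol p hp hpβ with ⟨h1, h1'⟩ | ⟨h1, h1'⟩
        · exact hx.2 h0' (y 1) hadj1 h0 h1'
        · exact hx.2 h0' p h1 hpp h1'
    · exact hMs (m + 1) β (by omega) le_rfl hy

end Pool.Agent.Helper75_Viz
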