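import Mathlib
import Pool.Agent.Helper75_Viz.Dyn

set_option autoImplicit false

open SimpleGraph

namespace Pool.Agent.Helper75_Viz

variable {V : Type*} {κ : Type*}

/-- The splitting `g` is compatible with the ordering and the colouring. -/
def Valid (pos : V → ℕ) (H : SimpleGraph V) (c : Sym2 V → κ) (g : V → V → Bool) : Prop :=
  (∀ v w, H.Adj v w → pos w < pos v → g v w = true) ∧
  (∀ v w w', H.Adj v w → H.Adj v w' → c s(v, w) = c s(v, w') → g v w = g v w' → w = w')

/-- The graph obtained by splitting every vertex according to `g`. -/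
def SG (H : SimpleGraph V) (g : V → V → Bool) : SimpleGraph (V × Bool) where
  Adj x y := H.Adj x.1 y.1 ∧ x.2 = g x.1 y.1 ∧ y.2 = g y.1 x.1
  symm := ⟨fun _ _ h => ⟨h.1.symm, h.2.2, h.2.1⟩⟩
  loopless := ⟨fun _ h => h.1.ne rfl⟩

/-- The colouring of the split graph. -/
def up (c : Sym2 V → κ) : Sym2 (V × Bool) → κ := fun e => c (e.map Prod.fst)

lemma up_mk (c : Sym2 V → κ) (p q : V × Bool) : up c s(p, q) = c s(p.1, q.1) := rfl

/-- The colouring of the graph from one of the split graph. -/
def down (g : V → V → Bool) (C : Sym2 (V × Bool) → κ) : Sym2 V → κ :=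
  Sym2.lift ⟨fun v w => C s((v, g v w), (w, g w v)), fun _ _ => congrArg C Sym2.eq_swap⟩

lemma down_mk (g : V → V → Bool) (C : Sym2 (V × Bool) → κ) (v w : V) :
    down g C s(v, w) = C s((v, g v w), (w, g w v)) := rfl

lemma up_proper {pos : V → ℕ} {H : SimpleGraph V} {c : Sym2 V → κ} {g : V → V → Bool}
    (h : Valid pos H c g) : Proper (SG H g) (up c) := by
  rintro ⟨v, a⟩ ⟨w, b⟩ ⟨w', b'⟩ ⟨h1, h2, h3⟩ ⟨h1', h2', h3'⟩ hc
  rw [up_mk, up_mk] at hc
  have hww : w = w' := h.2 v w w' h1 h1' hc (h2.symm.trans h2')
  subst hww
  have : b = b' := h3.trans h3'.symm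
  rw [this]

lemma down_valid {pos : V → ℕ} {H : SimpleGraph V} {g : V → V → Bool}
    (h : ∀ v w, H.Adj v w → pos w < pos v → g v w = true) {C : Sym2 (V × Bool) → κ}
    (hC : Proper (SG H g) C) : Valid pos H (down g C) g := by
  refine ⟨h, fun v w w' h1 h2 h3 h4 => ?_⟩
  rw [down_mk, down_mk] at h3
  have ha : (SG H g).Adj (v, g v w) (w, g w v) := ⟨h1, rfl, rfl⟩
  have hb : (SG H g).Adj (v, g v w) (w', g w' v) := ⟨h2, h4, rfl⟩
  have := hC _ _ _ ha hb (by rw [h3, h4])
  exact congrArg Prod.fst this

lemma Valid.good {pos : V → ℕ} {H : SimpleGraph V} {c : Sym2 V → κ} {g : V → V → Bool}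
    (h : Valid pos H c g) : Good pos H c := by
  refine ⟨fun v w w' h1 h2 h3 h4 h5 => ?_, fun v p q r h1 h2 h3 h4 h5 => ?_⟩
  · exact h.2 v w w' h1 h2 h5 (by rw [h.1 v w h1 h3, h.1 v w' h2 h4])
  · by_cases e1 : g v p = g v q
    · exact Or.inl (h.2 v p q h1 h2 h4 e1)
    · by_cases e2 : g v q = g v r
      · exact Or.inr (Or.inl (h.2 v q r h2 h3 h5 e2))
      · refine Or.inr (Or.inr (h.2 v p r h1 h3 (h4.trans h5) ?_))
        cases hp : g v p <;> cases hq : g v q <;> cases hr : g v r <;> simp_all

/-- The copy `(z, a)` misses the colour `β`. -/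
def MissC (H : SimpleGraph V) (c : Sym2 V → κ) (g : V → V → Bool) (z : V) (a : Bool) (β : κ) :
    Prop := ∀ w, H.Adj z w → g z w = a → c s(z, w) ≠ β

lemma MissC.miss {H : SimpleGraph V} {c : Sym2 V → κ} {g : V → V → Bool} {z : V} {a : Bool} {β : κ}
    (h : MissC H c g z a β) : Miss (SG H g) (up c) (z, a) β := by
  rintro ⟨w, b⟩ ⟨h1, h2, _⟩
  exact h w h1 h2.symm

lemma MissC.av {pos : V → ℕ} {H : SimpleGraph V} {c : Sym2 V → κ} {g : V → V → Bool} {x z : V}
    {a : Bool} {β : κ} (hg : Valid pos H c g) (h : MissC H c g z a β)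
    (ha : pos x < pos z → a = true) : Av pos H c z x β := by
  refine ⟨fun p q hp hq hpβ hqβ => ?_, fun h0 p hp hpp hpβ => ?_⟩
  · refine hg.2 z p q hp hq (hpβ.trans hqβ.symm) ?_
    have h1 : g z p ≠ a := fun h' => h p hp h' hpβ
    have h2 : g z q ≠ a := fun h' => h q hq h' hqβ
    cases a <;> simp_all
  · have := ha h0
    subst this
    exact h p hp (hg.1 z p hp hpp) hpβ

/-- The fan lemma with respect to a splitting. -/
lemma kempe_fan [Finite V] {pos : V → ℕ} {G : SimpleGraph V}
    {x y₀ : V} {c : Sym2 V → κ} {g : V → V → Bool} {b : Bool}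
    (hadj₀ : G.Adj x y₀)
    (hg : Valid pos (G.deleteEdges {s(x, y₀)}) c g)
    (hb : (b = false ∧ pos x < pos y₀) ∨
      (b = true ∧ pos y₀ < pos x ∧ ∀ w, G.Adj x w → pos w < pos x))
    (hx : ∃ α, MissC (G.deleteEdges {s(x, y₀)}) c g x b α)
    (hleaf : ∀ z, G.Adj x z → (z = y₀ ∨ g x z = b) →
      ∃ β a, (pos x < pos z → a = true) ∧ MissC (G.deleteEdges {s(x, y₀)}) c g z a β) :
    ∃ c' : Sym2 V → κ, Good pos G c' := by
  classical
  obtain ⟨α, hα⟩ := hx
  -- availability at `x`
  have hxav : ∀ (c' : Sym2 V → κ) (β : κ), Valid pos (G.deleteEdges {s(x, y₀)}) c' g →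
      MissC (G.deleteEdges {s(x, y₀)}) c' g x b β → Av pos (G.deleteEdges {s(x, y₀)}) c' x y₀ β := by
    intro c' β hv hm
    rcases hb with ⟨hb, hlt⟩ | ⟨hb, hlt, hall⟩
    · exact hm.av hv (fun h => by omega)
    · exact hm.av hv (fun _ => hb)
  have hside : ∀ z, G.Adj x z → (z = y₀ ∨ (G.deleteEdges {s(x, y₀)}).Adj x z ∧ g x z = b) →
      (pos z < pos x ↔ pos y₀ < pos x) := by
    intro z hz hz'
    rcases hz' with rfl | ⟨hz1, hz2⟩
    · exact Iff.rfl
    · rcases hb with ⟨hb, hlt⟩ | ⟨hb, hlt, hall⟩
      · constructor
        · intro h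
          have := hg.1 x z hz1 h
          rw [hz2, hb] at this
          exact absurd this (by decide)
        · intro h
          omega
      · exact ⟨fun _ => hlt, fun _ => hall z hz⟩
  have main : ∀ (n m : ℕ) (y : ℕ → V), Nat.card V ≤ n + m → y 0 = y₀ →
      (∀ i ≤ m, G.Adj x (y i)) →
      (∀ i ≤ m, ∀ j ≤ m, y i = y j → i = j) →
      (∀ i, 1 ≤ i → i ≤ m → g x (y i) = b) →
      (∀ i < m, ∃ a, (pos x < pos (y i) → a = true) ∧
        MissC (G.deleteEdges {s(x, y₀)}) c g (y i) a (c s(x, y (i + 1)))) →
      ∃ c' : Sym2 V → κ, Good pos G c' := by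
    intro n
    induction n with
    | zero =>
      intro m y hm _ _ hinj _ _
      exfalso
      have h1 : Function.Injective (fun i : Fin (m + 1) => y i) := by
        intro i j h
        have := hinj i (by omega) j (by omega) h
        exact Fin.ext this
      have h2 := Nat.card_le_card_of_injective _ h1
      rw [Nat.card_fin] at h2
      omega
    | succ n ih =>
      intro m y hm hy0 hadj hinj hgb hmiss
      subst hy0
      set H := G.deleteEdges {s(x, y 0)} with hH
      have hadjH : ∀ j, 1 ≤ j → j ≤ m → H.Adj x (y j) := by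
        intro j h1 h2
        refine adj_del.2 ⟨hadj j h2, ?_⟩
        intro h
        have h3 : y j = y 0 := sym2_right h
        have := hinj j h2 0 (by omega) h3
        omega
      have hsidey : ∀ i ≤ m, (pos (y i) < pos x ↔ pos (y 0) < pos x) := by
        intro i hi
        refine hside (y i) (hadj i hi) ?_
        by_cases h0 : i = 0
        · left; rw [h0]
        · right
          exact ⟨hadjH i (by omega) hi, hgb i (by omega) hi⟩
      obtain ⟨β, am, ham, hβ⟩ := hleaf (y m) (hadj m le_rfl) (by
        by_cases h0 : m = 0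
        · left; rw [h0]
        · right; exact hgb m (by omega) le_rfl)
      by_cases hxβ : MissC H c g x b β
      · refine good_shift m y c β hg.good hadj hinj hsidey ?_ (hxav c β hg hxβ) (hβ.av hg ham)
        intro i hi
        obtain ⟨a, ha, hma⟩ := hmiss i hi
        exact hma.av hg ha
      unfold MissC at hxβ
      push Not at hxβ
      obtain ⟨z, hz, hzb, hzβ⟩ := hxβ
      by_cases hzy : ∃ i, i ≤ m ∧ y i = z
      · -- Kempe chain argument
        obtain ⟨i, him, rfl⟩ := hzy
        have hi0 : i ≠ 0 := by
          rintro rfl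
          exact (adj_del.1 hz).2 rfl
        obtain ⟨i, rfl⟩ : ∃ i', i = i' + 1 := ⟨i - 1, by omega⟩
        obtain ⟨ai, hai, hMi⟩ := hmiss i (by omega)
        rw [hzβ] at hMi
        have hP : Proper (SG H g) (up c) := up_proper hg
        have hd2 := two_deg hP α β
        have hx1 : ((Two (SG H g) (up c) α β).neighborSet (x, b)).ncard ≤ 1 :=
          two_deg_one hP (Or.inl hα.miss)
        have hi1 : ((Two (SG H g) (up c) α β).neighborSet (y i, ai)).ncard ≤ 1 :=
          two_deg_one hP (Or.inr hMi.miss)
        have hm1 : ((Two (SG H g) (up c) α β).neighborSet (y m, am)).ncard ≤ 1 :=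
          two_deg_one hP (Or.inr hβ.miss)
        have hxi : (x, b) ≠ (y i, ai) := fun h => (hadj i (by omega)).ne (congrArg Prod.fst h)
        have hxm : (x, b) ≠ (y m, am) := fun h => (hadj m le_rfl).ne (congrArg Prod.fst h)
        have hyim : (y i, ai) ≠ (y m, am) := by
          intro h
          have := hinj i (by omega) m le_rfl (congrArg Prod.fst h)
          omega
        -- the new colouring
        set C' := kempe (SG H g) (up c) α β (x, b) with hC'
        set c' := down g C' with hc'
        have hP' : Proper (SG H g) C' := kempe_proper hP α β (x, b)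
        have hg' : Valid pos H c' g := down_valid hg.1 hP'
        have happ : ∀ v w, H.Adj v w →
            c' s(v, w) = sig (SG H g) (up c) α β (x, b) (v, g v w) (c s(v, w)) := by
          intro v w hvw
          rw [hc', down_mk, hC', kempe_apply (show (SG H g).Adj (v, g v w) (w, g w v) from
            ⟨hvw, rfl, rfl⟩), up_mk]
        -- colours of the other fan edges
        have hneα : ∀ j, 1 ≤ j → j ≤ m → c s(x, y j) ≠ α :=
          fun j h1 h2 => hα _ (hadjH j h1 h2) (hgb j h1 h2)
        have hneβ : ∀ j, 1 ≤ j → j ≤ m → j ≠ i + 1 → c s(x, y j) ≠ β := by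
          intro j h1 h2 h3 h4
          apply h3
          refine hinj j h2 (i + 1) him ?_
          exact hg.2 x _ _ (hadjH j h1 h2) hz (by rw [h4, hzβ]) (by rw [hgb j h1 h2, hzb])
        have hKx : ∀ j, 1 ≤ j → j ≤ m → j ≠ i + 1 → c' s(x, y j) = c s(x, y j) := by
          intro j h1 h2 h3
          rw [happ _ _ (hadjH j h1 h2)]
          exact sig_of_ne _ _ _ _ _ _ (hneα j h1 h2) (hneβ j h1 h2 h3)
        have hmissx : MissC H c' g x b β := by
          intro w hw hgw h
          rw [happ _ _ hw, hgw] at h
          have hsw := sig_of_reach (H := SG H g) (c := up c) (α := α) (β := β)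
            (Reachable.refl (x, b))
          exact hα w hw hgw (sig_inj _ _ _ _ _ _ (h.trans hsw.2.symm))
        have hmissne : ∀ z a γ, γ ≠ α → γ ≠ β → MissC H c g z a γ → MissC H c' g z a γ := by
          intro z a γ h1 h2 h3 w hw hgw h
          rw [happ _ _ hw, hgw] at h
          have h4 := sig_of_ne (SG H g) (up c) α β (x, b) (z, a) h1 h2
          exact h3 w hw hgw (sig_inj _ _ _ _ _ _ (h.trans h4.symm))
        have hmissnr : ∀ z a γ, ¬ (Two (SG H g) (up c) α β).Reachable (x, b) (z, a) →
            MissC H c g z a γ → MissC H c' g z a γ := by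
          intro z a γ h1 h3 w hw hgw h
          rw [happ _ _ hw, hgw, sig_of_not_reach h1] at h
          exact h3 w hw hgw h
        have hKM : ∀ j < m, j ≠ i → Av pos H c' (y j) x (c' s(x, y (j + 1))) := by
          intro j h1 h2
          obtain ⟨a, ha, hma⟩ := hmiss j h1
          rw [hKx (j + 1) (by omega) (by omega) (by omega)]
          exact (hmissne _ _ _ (hneα (j + 1) (by omega) (by omega))
            (hneβ (j + 1) (by omega) (by omega) (by omega)) hma).av hg' ha
        by_cases hri : (Two (SG H g) (up c) α β).Reachable (x, b) (y i, ai)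
        · have hrm : ¬ (Two (SG H g) (up c) α β).Reachable (x, b) (y m, am) := by
            rcases not_three _ hd2 hx1 hi1 hm1 hxi hxm hyim with h | h
            · exact absurd hri h
            · exact h
          refine good_shift m y c' β hg'.good hadj hinj hsidey ?_ (hxav c' β hg' hmissx) ?_
          · intro j hj
            by_cases hji : j = i
            · subst hji
              have hα' : c' s(x, y (j + 1)) = α := by
                rw [happ _ _ hz, hzb, hzβ]
                exact (sig_of_reach (Reachable.refl (x, b))).1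
              rw [hα']
              refine MissC.av hg' (a := ai) ?_ hai
              intro w hw hgw h
              rw [happ _ _ hw, hgw] at h
              exact hMi w hw hgw (sig_inj _ _ _ _ _ _ (h.trans (sig_of_reach hri).1.symm))
            · exact hKM j hj hji
          · exact (hmissnr _ _ _ hrm hβ).av hg' ham
        · refine good_shift i y c' β hg'.good (fun j hj => hadj j (by omega))
            (fun j hj k hk => hinj j (by omega) k (by omega)) (fun j hj => hsidey j (by omega))
            (fun j hj => hKM j (by omega) (by omega)) (hxav c' β hg' hmissx) ?_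
          exact (hmissnr _ _ _ hri hMi).av hg' hai
      · push Not at hzy
        have hupd : ∀ i ≤ m, Function.update y (m + 1) z i = y i := by
          intro i hi
          rw [Function.update_of_ne (by omega)]
        refine ih (m + 1) (Function.update y (m + 1) z) (by omega) ?_ ?_ ?_ ?_ ?_
        · rw [hupd 0 (by omega)]
        · intro i hi
          by_cases h : i = m + 1
          · subst h
            rw [Function.update_self]
            exact (adj_del.1 hz).1
          · rw [hupd i (by omega)]
            exact hadj i (by omega)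
        · intro i hi j hj h
          by_cases h1 : i = m + 1
          · by_cases h2 : j = m + 1
            · omega
            · subst h1
              rw [Function.update_self, hupd j (by omega)] at h
              exact absurd h.symm (hzy j (by omega))
          · by_cases h2 : j = m + 1
            · subst h2
              rw [Function.update_self, hupd i (by omega)] at h
              exact absurd h (hzy i (by omega))
            · rw [hupd i (by omega), hupd j (by omega)] at h
              exact hinj i (by omega) j (by omega) h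
        · intro i h1 h2
          by_cases h : i = m + 1
          · subst h
            rw [Function.update_self]
            exact hzb
          · rw [hupd i (by omega)]
            exact hgb i h1 (by omega)
        · intro i hi
          rw [hupd i (by omega)]
          by_cases h : i = m
          · subst h
            rw [Function.update_self, hzβ]
            exact ⟨am, ham, hβ⟩
          · rw [hupd (i + 1) (by omega)]
            exact hmiss i (by omega)
  refine main (Nat.card V) 0 (fun _ => y₀) (by omega) rfl (fun i _ => hadj₀) ?_ ?_ ?_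
  · intro i hi j hj _
    omega
  · intro i h1 h2
    omega
  · intro i hi
    omega

end Pool.Agent.Helper75_Viz
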