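import Mathlib
import Pool.Agent.Helper75_Viz.Core
import Pool.Agent.Helper75_LA.Host

set_option autoImplicit false

open SimpleGraph Pool.Agent.Helper14_LA Pool.Agent.Helper75_LA

namespace Pool.Agent.Helper75_Viz

variable {V : Type*}

/-- A degenerate graph has an ordering in which every vertex has few earlier neighbours. -/
lemma exists_order [Finite V] (G : SimpleGraph V) (k : ℕ) (hG : Degen G k) :
    ∃ pos : V → ℕ, Function.Injective pos ∧
      ∀ v, ({w | G.Adj v w ∧ pos w < pos v} : Set V).ncard ≤ k := by
  classical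
  have main : ∀ (n : ℕ) (S : Set V), S.ncard = n → ∃ pos : V → ℕ, Set.InjOn pos S ∧
      (∀ v ∈ S, pos v < n) ∧
      ∀ v ∈ S, ({w | w ∈ S ∧ G.Adj v w ∧ pos w < pos v} : Set V).ncard ≤ k := by
    intro n
    induction n with
    | zero =>
      intro S hS
      have h0 : S = ∅ := by
        rwa [Set.ncard_eq_zero (Set.toFinite _)] at hS
      subst h0
      exact ⟨fun _ => 0, by simp, by simp, by simp⟩
    | succ n ih =>
      intro S hS
      have hne : S.Nonempty := by
        rw [← Set.ncard_pos (Set.toFinite _), hS]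
        omega
      obtain ⟨v, hv, hvk⟩ := hG S hne
      have hS' : (S \ {v}).ncard = n := by
        rw [Set.ncard_sdiff_singleton_of_mem hv, hS]
        rfl
      obtain ⟨pos, h1, h2, h3⟩ := ih (S \ {v}) hS'
      refine ⟨Function.update pos v n, ?_, ?_, ?_⟩
      · intro a ha b hb hab
        by_cases hav : a = v
        · by_cases hbv : b = v
          · rw [hav, hbv]
          · exfalso
            rw [hav, Function.update_self, Function.update_of_ne hbv] at hab
            have := h2 b ⟨hb, hbv⟩
            omega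
        · by_cases hbv : b = v
          · exfalso
            rw [hbv, Function.update_self, Function.update_of_ne hav] at hab
            have := h2 a ⟨ha, hav⟩
            omega
          · rw [Function.update_of_ne hav, Function.update_of_ne hbv] at hab
            exact h1 ⟨ha, hav⟩ ⟨hb, hbv⟩ hab
      · intro a ha
        by_cases hav : a = v
        · rw [hav, Function.update_self]
          omega
        · rw [Function.update_of_ne hav]
          have := h2 a ⟨ha, hav⟩
          omega
      · intro a ha
        by_cases hav : a = v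
        · subst hav
          refine le_trans (Set.ncard_le_ncard ?_ (Set.toFinite _)) hvk
          intro w hw
          exact ⟨hw.2.1, hw.1⟩
        · refine le_trans (Set.ncard_le_ncard ?_ (Set.toFinite _)) (h3 a ⟨ha, hav⟩)
          rintro w ⟨hw1, hw2, hw3⟩
          rw [Function.update_of_ne hav] at hw3
          have hwv : w ≠ v := by
            intro h
            rw [h, Function.update_self] at hw3
            have := h2 a ⟨ha, hav⟩
            omega
          rw [Function.update_of_ne hwv] at hw3
          exact ⟨⟨hw1, hwv⟩, hw2, hw3⟩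
  obtain ⟨pos, h1, _, h3⟩ := main _ Set.univ rfl
  refine ⟨pos, fun a b hab => h1 (Set.mem_univ _) (Set.mem_univ _) hab, fun v => ?_⟩
  refine le_trans (Set.ncard_le_ncard ?_ (Set.toFinite _)) (h3 v (Set.mem_univ _))
  exact fun w hw => ⟨Set.mem_univ _, hw⟩

open Classical in
/-- The group of the edge `vw` at the vertex `v`. -/
noncomputable def gr (A : V → Set V) (v w : V) : Bool := decide (w ∉ A v)

/-- The graph obtained from `G` by splitting every vertex `v` into `(v, false)`, which receives the
edges to the vertices of `A v`, and `(v, true)`, which receives the other edges. -/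
def splitG (G : SimpleGraph V) (A : V → Set V) : SimpleGraph (V × Bool) where
  Adj x y := G.Adj x.1 y.1 ∧ x.2 = gr A x.1 y.1 ∧ y.2 = gr A y.1 x.1
  symm := ⟨fun _ _ h => ⟨h.1.symm, h.2.2, h.2.1⟩⟩
  loopless := ⟨fun _ h => h.1.ne rfl⟩

lemma splitG_false [Finite V] (G : SimpleGraph V) (A : V → Set V)
    (v : V) : ((splitG G A).neighborSet (v, false)).ncard ≤ (A v).ncard := by
  classical
  refine Set.ncard_le_ncard_of_injOn Prod.fst ?_ ?_ (Set.toFinite _)
  · rintro ⟨w, b⟩ ⟨_, h2, _⟩
    have h2' : false = gr A v w := h2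
    unfold gr at h2'
    by_contra hw
    simp [hw] at h2'
  · rintro ⟨w, b⟩ ⟨_, _, h3⟩ ⟨w', b'⟩ ⟨_, _, h3'⟩ h
    have hww : w = w' := h
    subst hww
    have e1 : b = gr A w v := h3
    have e2 : b' = gr A w v := h3'
    rw [e1, e2]

lemma splitG_true [Finite V] (G : SimpleGraph V) (A : V → Set V)
    (v : V) : ((splitG G A).neighborSet (v, true)).ncard ≤ (G.neighborSet v \ A v).ncard := by
  classical
  refine Set.ncard_le_ncard_of_injOn Prod.fst ?_ ?_ (Set.toFinite _)
  · rintro ⟨w, b⟩ ⟨h1, h2, _⟩
    have h2' : true = gr A v w := h2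
    unfold gr at h2'
    refine ⟨h1, ?_⟩
    intro hw
    simp [hw] at h2'
  · rintro ⟨w, b⟩ ⟨_, _, h3⟩ ⟨w', b'⟩ ⟨_, _, h3'⟩ h
    have hww : w = w' := h
    subst hww
    have e1 : b = gr A w v := h3
    have e2 : b' = gr A w v := h3'
    rw [e1, e2]

/-- A proper edge colouring of the split graph gives a decomposition into linear forests. -/
lemma cover_of_split [Finite V] (G : SimpleGraph V) (pos : V → ℕ) (A : V → Set V)
    (hA : ∀ v w, w ∈ A v → pos v < pos w) (q : ℕ) (col : Sym2 (V × Bool) → Fin q)
    (hcol : Proper (splitG G A) col) : CoveredBy G q := by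
  classical
  let F : Fin q → SimpleGraph V := fun i =>
    { Adj := fun v w => G.Adj v w ∧ col s((v, gr A v w), (w, gr A w v)) = i
      symm := ⟨fun v w h => ⟨h.1.symm, by rw [Sym2.eq_swap]; exact h.2⟩⟩
      loopless := ⟨fun v h => h.1.ne rfl⟩ }
  have hF : ∀ i v w, (F i).Adj v w ↔ G.Adj v w ∧ col s((v, gr A v w), (w, gr A w v)) = i :=
    fun i v w => Iff.rfl
  have huniq : ∀ i v w w', (F i).Adj v w → (F i).Adj v w' → gr A v w = gr A v w' → w = w' := by
    intro i v w w' h h' hg
    rw [hF] at h h'
    have h1 : (splitG G A).Adj (v, gr A v w) (w, gr A w v) := ⟨h.1, rfl, rfl⟩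
    have h2 : (splitG G A).Adj (v, gr A v w) (w', gr A w' v) := ⟨h'.1, hg, rfl⟩
    have h3 := hcol _ _ _ h1 h2 (by rw [h.2, hg, h'.2])
    exact congrArg Prod.fst h3
  refine ⟨F, fun i => ⟨?_, fun v => ?_⟩, ?_⟩
  · refine acyclic_of_pos (F i) pos ?_
    intro v w w' h h' hw hw'
    refine huniq i v w w' h h' ?_
    have h1 : w ∉ A v := fun h1 => by have := hA v w h1; omega
    have h2 : w' ∉ A v := fun h2 => by have := hA v w' h2; omega
    unfold gr
    simp [h1, h2]
  · have h1 : ((F i).neighborSet v).ncard ≤ (Set.univ : Set Bool).ncard := by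
      refine Set.ncard_le_ncard_of_injOn (fun w => gr A v w) (fun _ _ => Set.mem_univ _) ?_
        (Set.toFinite _)
      intro w hw w' hw' h
      exact huniq i v w w' hw hw' h
    simpa using h1
  · ext v w
    simp only [iSup_adj, hF]
    exact ⟨fun ⟨_, h⟩ => h.1, fun h => ⟨_, h, rfl⟩⟩

/-- Choosing the first group. -/
lemma pick [Finite V] (I : Set V) (o p r : ℕ) (h : I.ncard + o ≤ p + r) (ho : o ≤ r) :
    ∃ A ⊆ I, A.ncard ≤ p ∧ (I \ A).ncard + o ≤ r := by
  by_cases hI : I.ncard ≤ p
  · exact ⟨I, subset_rfl, hI, by simpa using ho⟩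
  · obtain ⟨A, hA, hAc⟩ := Set.exists_subset_card_eq (s := I) (n := p) (by omega)
    refine ⟨A, hA, hAc.le, ?_⟩
    have := Set.ncard_sdiff_add_ncard_of_subset hA (Set.toFinite _)
    omega

/-- The out- and in-neighbours. -/
lemma nbr_diff [Finite V] (G : SimpleGraph V) (pos : V → ℕ) (hpos : Function.Injective pos)
    (v : V) (A : Set V) :
    (G.neighborSet v \ A).ncard ≤ (({w | G.Adj v w ∧ pos v < pos w} : Set V) \ A).ncard +
      ({w | G.Adj v w ∧ pos w < pos v} : Set V).ncard := by
  refine le_trans (Set.ncard_le_ncard ?_ (Set.toFinite _)) (Set.ncard_union_le _ _)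
  rintro w ⟨hw, hwA⟩
  have hne : pos v ≠ pos w := fun h => (G.ne_of_adj hw) (hpos h)
  rcases lt_or_gt_of_ne hne with h | h
  · exact Or.inl ⟨⟨hw, h⟩, hwA⟩
  · exact Or.inr ⟨hw, h⟩

lemma nbr_sum [Finite V] (G : SimpleGraph V) (pos : V → ℕ) (v : V) :
    ({w | G.Adj v w ∧ pos v < pos w} : Set V).ncard +
      ({w | G.Adj v w ∧ pos w < pos v} : Set V).ncard ≤ (G.neighborSet v).ncard := by
  rw [← Set.ncard_union_eq (Set.disjoint_left.2 fun w h h' => by
    have h1 := h.2; have h2 := h'.2; omega) (Set.toFinite _) (Set.toFinite _)]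
  refine Set.ncard_le_ncard ?_ (Set.toFinite _)
  rintro w (hw | hw)
  · exact hw.1
  · exact hw.1

/-- Even case: `Δ ≤ 2 q - 2` and `k ≤ q`. -/
theorem cover_even [Finite V] (G : SimpleGraph V) (q : ℕ) (hq : 0 < q) (hG : Degen G q)
    (hdeg : ∀ v, (G.neighborSet v).ncard + 2 ≤ 2 * q) : CoveredBy G q := by
  classical
  obtain ⟨pos, hpos, hout⟩ := exists_order G q hG
  have hex : ∀ v, ∃ A ⊆ ({w | G.Adj v w ∧ pos v < pos w} : Set V), A.ncard ≤ q - 1 ∧
      ((({w | G.Adj v w ∧ pos v < pos w} : Set V) \ A).ncard +
        ({w | G.Adj v w ∧ pos w < pos v} : Set V).ncard ≤ q - 1 ∨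
       (A = {w | G.Adj v w ∧ pos v < pos w} ∧
        ({w | G.Adj v w ∧ pos w < pos v} : Set V).ncard = q)) := by
    intro v
    have h1 := nbr_sum G pos v
    have h2 := hdeg v
    have h3 := hout v
    by_cases h4 : ({w | G.Adj v w ∧ pos w < pos v} : Set V).ncard = q
    · exact ⟨_, subset_rfl, by omega, Or.inr ⟨rfl, h4⟩⟩
    · obtain ⟨A, hA, hA1, hA2⟩ := pick ({w | G.Adj v w ∧ pos v < pos w} : Set V)
        ({w | G.Adj v w ∧ pos w < pos v} : Set V).ncard (q - 1) (q - 1) (by omega) (by omega)
      exact ⟨A, hA, hA1, Or.inl hA2⟩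
  choose A hA hA1 hA2 using hex
  have hApos : ∀ v w, w ∈ A v → pos v < pos w := fun v w hw => (hA v hw).2
  have hne : Nonempty (Fin q) := ⟨⟨0, hq⟩⟩
  -- degrees
  have hF : ∀ v, ((splitG G A).neighborSet (v, false)).ncard < q := by
    intro v
    have h1 := splitG_false G A v
    have h2 := hA1 v
    omega
  have hT : ∀ v, ((splitG G A).neighborSet (v, true)).ncard < q ∨
      (((splitG G A).neighborSet (v, true)).ncard ≤ q ∧
        A v = {w | G.Adj v w ∧ pos v < pos w}) := by
    intro v
    have h1 := splitG_true G A v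
    have h2 := nbr_diff G pos hpos v (A v)
    rcases hA2 v with h | ⟨h, h'⟩
    · left; omega
    · right
      refine ⟨?_, h⟩
      have h4 : (({w | G.Adj v w ∧ pos v < pos w} : Set V) \ A v) = ∅ := by
        rw [h]; simp
      rw [h4, Set.ncard_empty] at h2
      omega
  obtain ⟨col, hcol⟩ := vizing_core (κ := Fin q) _ (splitG G A) le_rfl (by
      rintro ⟨v, b⟩
      rw [Fintype.card_fin]
      cases b
      · exact (hF v).le
      · rcases hT v with h | h
        · exact h.le
        · exact h.1) (by
      rintro ⟨v, b⟩ ⟨w, b'⟩ hadj hfull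
      rw [Fintype.card_fin] at hfull ⊢
      cases b
      · have := hF v
        omega
      · cases b'
        · exact hF w
        · rcases hT v with h | ⟨_, h⟩
          · omega
          · rcases hT w with h' | ⟨_, h'⟩
            · exact h'
            · exfalso
              obtain ⟨h1, h2, h3⟩ := hadj
              have h2' : true = gr A v w := h2
              have h3' : true = gr A w v := h3
              have hvw : G.Adj v w := h1
              unfold gr at h2' h3'
              have hne : pos v ≠ pos w := fun h => hvw.ne (hpos h)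
              rcases lt_or_gt_of_ne hne with h5 | h5
              · have : w ∈ A v := by rw [h]; exact ⟨hvw, h5⟩
                simp [this] at h2'
              · have : v ∈ A w := by rw [h']; exact ⟨hvw.symm, h5⟩
                simp [this] at h3')
  exact cover_of_split G pos A hApos q col hcol

/-- Odd case: `Δ ≤ 2 q - 1` and `k ≤ q - 1`. -/
theorem cover_odd [Finite V] (G : SimpleGraph V) (q : ℕ) (hq : 0 < q) (hG : Degen G (q - 1))
    (hdeg : ∀ v, (G.neighborSet v).ncard + 1 ≤ 2 * q) : CoveredBy G q := by
  classical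
  obtain ⟨pos, hpos, hout⟩ := exists_order G (q - 1) hG
  have hex : ∀ v, ∃ A ⊆ ({w | G.Adj v w ∧ pos v < pos w} : Set V), A.ncard ≤ q ∧
      (({w | G.Adj v w ∧ pos v < pos w} : Set V) \ A).ncard +
        ({w | G.Adj v w ∧ pos w < pos v} : Set V).ncard ≤ q - 1 := by
    intro v
    have h1 := nbr_sum G pos v
    have h2 := hdeg v
    have h3 := hout v
    exact pick ({w | G.Adj v w ∧ pos v < pos w} : Set V)
        ({w | G.Adj v w ∧ pos w < pos v} : Set V).ncard q (q - 1) (by omega) (by omega)
  choose A hA hA1 hA2 using hex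
  have hApos : ∀ v w, w ∈ A v → pos v < pos w := fun v w hw => (hA v hw).2
  have hne : Nonempty (Fin q) := ⟨⟨0, hq⟩⟩
  -- degrees
  have hF : ∀ v, ((splitG G A).neighborSet (v, false)).ncard ≤ q := by
    intro v
    have h1 := splitG_false G A v
    have h2 := hA1 v
    omega
  have hT : ∀ v, ((splitG G A).neighborSet (v, true)).ncard < q := by
    intro v
    have h1 := splitG_true G A v
    have h2 := nbr_diff G pos hpos v (A v)
    have h3 := hA2 v
    omega
  obtain ⟨col, hcol⟩ := vizing_core (κ := Fin q) _ (splitG G A) le_rfl (by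
      rintro ⟨v, b⟩
      rw [Fintype.card_fin]
      cases b
      · exact hF v
      · exact (hT v).le) (by
      rintro ⟨v, b⟩ ⟨w, b'⟩ hadj hfull
      rw [Fintype.card_fin] at hfull ⊢
      cases b
      · cases b'
        · exfalso
          obtain ⟨h1, h2, h3⟩ := hadj
          have h2' : false = gr A v w := h2
          have h3' : false = gr A w v := h3
          unfold gr at h2' h3'
          have h4 : w ∈ A v := by
            by_contra h
            simp [h] at h2'
          have h5 : v ∈ A w := by
            by_contra h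
            simp [h] at h3'
          have h6 := hApos v w h4
          have h7 := hApos w v h5
          omega
        · exact hT w
      · have := hT v
        omega)
  exact cover_of_split G pos A hApos q col hcol

end Pool.Agent.Helper75_Viz
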