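import Mathlib
import Pool.Agent.Helper75_Viz.KFan
import Pool.Agent.Helper75_Viz.Split

set_option autoImplicit false

open SimpleGraph Pool.Agent.Helper14_LA Pool.Agent.Helper75_LA

namespace Pool.Agent.Helper75_Viz

variable {V : Type*} {κ : Type*}

open Classical in
/-- The canonical splitting: edges to earlier vertices go to `true`; of two edges of the same colour
the one to the last vertex goes to `false`; the edge of colour `α` at `x` goes to `true` if `ov`. -/
noncomputable def gd (pos : V → ℕ) (H : SimpleGraph V) (c : Sym2 V → κ) (ov : V → κ → Prop)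
    (v w : V) : Bool :=
  decide (pos w < pos v ∨ (∃ w', H.Adj v w' ∧ c s(v, w') = c s(v, w) ∧ pos w < pos w') ∨
    ov v (c s(v, w)))

lemma gd_true {pos : V → ℕ} {H : SimpleGraph V} {c : Sym2 V → κ} {ov : V → κ → Prop} {v w : V} :
    gd pos H c ov v w = true ↔
      (pos w < pos v ∨ (∃ w', H.Adj v w' ∧ c s(v, w') = c s(v, w) ∧ pos w < pos w') ∨
    ov v (c s(v, w))) := by
  unfold gd
  simp only [decide_eq_true_eq]

lemma gd_valid {pos : V → ℕ} (hpos : Function.Injective pos) {H : SimpleGraph V}
    {c : Sym2 V → κ} (hc : Good pos H c) {ov : V → κ → Prop}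
    (hov : ∀ v a, ov v a → ∀ p q, H.Adj v p → H.Adj v q → c s(v, p) = a → c s(v, q) = a → p = q) :
    Valid pos H c (gd pos H c ov) := by
  refine ⟨fun v w _ h => gd_true.2 (Or.inl h), fun v w w' h1 h2 h3 h4 => ?_⟩
  by_contra hne
  -- no override for this colour
  have hno : ¬ ov v (c s(v, w)) := fun h => hne (hov v _ h w w' h1 h2 rfl h3.symm)
  have hno' : ¬ ov v (c s(v, w')) := by rwa [← h3]
  -- auxiliary: the vertex with smaller position
  have key : ∀ a b, H.Adj v a → H.Adj v b → c s(v, a) = c s(v, b) → ¬ ov v (c s(v, a)) →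
      gd pos H c ov v a = gd pos H c ov v b → pos a < pos b → False := by
    intro a b ha hb hab hov' hg hlt
    have hvb : pos b ≠ pos v := fun h => hb.ne (hpos h.symm)
    by_cases hT : gd pos H c ov v b = true
    · have hov'' : ¬ ov v (c s(v, b)) := by rwa [← hab]
      rcases gd_true.1 hT with h | ⟨w'', hw1, hw2, hw3⟩ | h
      · -- both earlier
        have := hc.1 v a b ha hb (by omega) h hab
        rw [this] at hlt
        omega
      · rcases hc.2 v a b w'' ha hb hw1 hab hw2.symm with h | h | h
        · rw [h] at hlt; omega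
        · rw [h] at hw3; omega
        · rw [h] at hlt; omega
      · exact hov'' h
    · rw [← hg] at hT
      exact hT (gd_true.2 (Or.inr (Or.inl ⟨b, hb, hab.symm, hlt⟩)))
  have hpp : pos w ≠ pos w' := fun h => hne (hpos h)
  rcases lt_or_gt_of_ne hpp with h | h
  · exact key w w' h1 h2 h3 hno h4 h
  · exact key w' w h2 h1 h3.symm hno' h4.symm h

/-- A vertex with `deg + out < 2 q` has a colour missing at its `true` copy. -/
lemma miss_true [Finite V] [Fintype κ] {pos : V → ℕ} (hpos : Function.Injective pos)
    {H : SimpleGraph V} {c : Sym2 V → κ} {ov : V → κ → Prop}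
    (hg : Valid pos H c (gd pos H c ov)) {z : V} (hz : ∀ a, ¬ ov z a)
    (hdeg : (H.neighborSet z).ncard + ({w | H.Adj z w ∧ pos w < pos z} : Set V).ncard <
      2 * Fintype.card κ) : ∃ β, MissC H c (gd pos H c ov) z true β := by
  classical
  set g := gd pos H c ov with hgdef
  set O : Set V := {w | H.Adj z w ∧ pos w < pos z} with hO
  set T : Set V := {w | H.Adj z w ∧ pos z < pos w ∧ g z w = true} with hT
  set F : Set V := {w | H.Adj z w ∧ pos z < pos w ∧ g z w = false} with hF
  have hTF : T.ncard ≤ F.ncard := by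
    have hex : ∀ w ∈ T, ∃ w' ∈ F, c s(z, w') = c s(z, w) := by
      rintro w ⟨hw1, hw2, hw3⟩
      rcases gd_true.1 hw3 with h | ⟨w', h1, h2, h3⟩ | h
      · omega
      · refine ⟨w', ⟨h1, by omega, ?_⟩, h2⟩
        by_contra hne
        have ht : g z w' = true := by
          cases h' : g z w' with
          | true => rfl
          | false => exact absurd h' hne
        have := hg.2 z w' w h1 hw1 h2 (ht.trans hw3.symm)
        rw [this] at h3
        omega
      · exact absurd h (hz _)
    choose! f hf1 hf2 using hex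
    refine Set.ncard_le_ncard_of_injOn f hf1 ?_ (Set.toFinite _)
    intro a ha b hb hab
    refine hg.2 z a b ha.1 hb.1 ?_ (ha.2.2.trans hb.2.2.symm)
    rw [← hf2 a ha, ← hf2 b hb, hab]
  have hsum : T.ncard + F.ncard + O.ncard ≤ (H.neighborSet z).ncard := by
    rw [← Set.ncard_union_eq (Set.disjoint_left.2 fun w h h' => by
      have h1 := h.2.2; rw [h'.2.2] at h1; exact absurd h1 (by decide))
      (Set.toFinite _) (Set.toFinite _),
      ← Set.ncard_union_eq (Set.disjoint_left.2 fun w h h' => by
        rcases h with h | h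
        · have h1 := h.2.1; have h2 := h'.2; omega
        · have h1 := h.2.1; have h2 := h'.2; omega) (Set.toFinite _) (Set.toFinite _)]
    refine Set.ncard_le_ncard ?_ (Set.toFinite _)
    rintro w ((hw | hw) | hw)
    · exact hw.1
    · exact hw.1
    · exact hw.1
  by_contra hcon
  push Not at hcon
  have h1 : (Set.univ : Set κ) ⊆ (fun w => c s(z, w)) '' (T ∪ O) := by
    intro β _
    have := hcon β
    unfold MissC at this
    push Not at this
    obtain ⟨w, hw1, hw2, hw3⟩ := this
    refine ⟨w, ?_, hw3⟩
    by_cases hlt : pos w < pos z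
    · exact Or.inr ⟨hw1, hlt⟩
    · have hne : pos z ≠ pos w := fun h => hw1.ne (hpos h)
      exact Or.inl ⟨hw1, by omega, hw2⟩
  have h2 := Set.ncard_le_ncard h1 (Set.toFinite _)
  have h3 := Set.ncard_image_le (f := fun w => c s(z, w)) (s := T ∪ O) (Set.toFinite _)
  have h4 := Set.ncard_union_le T O
  rw [Set.ncard_univ, Nat.card_eq_fintype_card] at h2
  omega

/-- A vertex with fewer than `2 q` edges has a colour missing at one of its copies. -/
lemma miss_some [Finite V] [Fintype κ] {H : SimpleGraph V} (c : Sym2 V → κ)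
    (g : V → V → Bool) {z : V}
    (hdeg : (H.neighborSet z).ncard < 2 * Fintype.card κ) : ∃ β a, MissC H c g z a β := by
  classical
  by_contra hcon
  push Not at hcon
  have h1 : (Set.univ : Set (Bool × κ)) ⊆ (fun w => (g z w, c s(z, w))) '' H.neighborSet z := by
    rintro ⟨a, β⟩ _
    have := hcon β a
    unfold MissC at this
    push Not at this
    obtain ⟨w, hw1, hw2, hw3⟩ := this
    exact ⟨w, hw1, Prod.ext hw2 hw3⟩
  have h2 := Set.ncard_le_ncard h1 (Set.toFinite _)
  have h3 := Set.ncard_image_le (f := fun w => (g z w, c s(z, w))) (s := H.neighborSet z)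
    (Set.toFinite _)
  rw [Set.ncard_univ, Nat.card_eq_fintype_card, Fintype.card_prod, Fintype.card_bool] at h2
  omega

/-- The number of earlier neighbours. -/
noncomputable def outd (pos : V → ℕ) (G : SimpleGraph V) (v : V) : ℕ :=
  ({w | G.Adj v w ∧ pos w < pos v} : Set V).ncard

lemma outd_mono [Finite V] {pos : V → ℕ} {G H : SimpleGraph V} (h : H ≤ G) (v : V) :
    outd pos H v ≤ outd pos G v :=
  Set.ncard_le_ncard (fun _ hw => ⟨h hw.1, hw.2⟩) (Set.toFinite _)

/-- Step A: `x` has a later neighbour `y`, and all later neighbours `z` of `x` satisfy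
`deg z + out z < 2 q`. -/
lemma stepA [Finite V] [Fintype κ] {pos : V → ℕ} (hpos : Function.Injective pos)
    {G : SimpleGraph V} {x y : V} (hxy : G.Adj x y) (hlt : pos x < pos y)
    (hdx : (G.neighborSet x).ncard ≤ 2 * Fintype.card κ)
    (hz : ∀ z, G.Adj x z → pos x < pos z →
      (G.neighborSet z).ncard + outd pos G z < 2 * Fintype.card κ)
    {c : Sym2 V → κ} (hc : Good pos (G.deleteEdges {s(x, y)}) c) :
    ∃ c' : Sym2 V → κ, Good pos G c' := by
  classical
  set H := G.deleteEdges {s(x, y)} with hH
  have hg0 : Valid pos H c (gd pos H c (fun _ _ => False)) := gd_valid hpos hc (by simp)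
  obtain ⟨α, a, hα⟩ := miss_some (z := x) c (gd pos H c (fun _ _ => False))
    (lt_of_lt_of_le (nbr_del_ncard_left G hxy) hdx)
  have hα1 : ∀ p q, H.Adj x p → H.Adj x q → c s(x, p) = α → c s(x, q) = α → p = q := by
    intro p q hp hq hpα hqα
    refine hg0.2 x p q hp hq (hpα.trans hqα.symm) ?_
    have h1 : gd pos H c (fun _ _ => False) x p ≠ a := fun h => hα p hp h hpα
    have h2 : gd pos H c (fun _ _ => False) x q ≠ a := fun h => hα q hq h hqα
    cases h3 : gd pos H c (fun _ _ => False) x p <;>
      cases h4 : gd pos H c (fun _ _ => False) x q <;> cases a <;> simp_all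
  have hg : Valid pos H c (gd pos H c (fun v b => v = x ∧ b = α)) := by
    refine gd_valid hpos hc ?_
    rintro v b ⟨rfl, rfl⟩
    exact hα1
  refine kempe_fan (b := false) hxy hg (Or.inl ⟨rfl, hlt⟩) ⟨α, ?_⟩ ?_
  · intro w hw hgw hcw
    have : gd pos H c (fun v b => v = x ∧ b = α) x w = true :=
      gd_true.2 (Or.inr (Or.inr ⟨rfl, hcw⟩))
    rw [this] at hgw
    exact absurd hgw (by decide)
  · intro z hxz hz'
    have hlz : pos x < pos z := by
      rcases hz' with rfl | hz'
      · exact hlt
      · by_cases hzy : z = y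
        · rw [hzy]; exact hlt
        · by_contra hcon
          have hne : pos x ≠ pos z := fun h => hxz.ne (hpos h)
          have : gd pos H c (fun v b => v = x ∧ b = α) x z = true :=
            gd_true.2 (Or.inl (by omega))
          rw [this] at hz'
          exact absurd hz' (by decide)
    have h1 := hz z hxz hlz
    have h2 : (H.neighborSet z).ncard ≤ (G.neighborSet z).ncard := nbr_del_ncard_le _ _ _
    have h3 : outd pos H z ≤ outd pos G z := outd_mono (del_le _ _) z
    obtain ⟨β, hβ⟩ := miss_true hpos hg (z := z) (fun b hb => hxz.ne hb.1.symm) (by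
      have h4 : ({w | H.Adj z w ∧ pos w < pos z} : Set V).ncard = outd pos H z := rfl
      omega)
    exact ⟨β, true, fun _ => rfl, hβ⟩

/-- Step B: all neighbours of `x` are earlier, there are at most `q` of them, and they have degree
less than `2 q`. -/
lemma stepB [Finite V] [Fintype κ] {pos : V → ℕ} (hpos : Function.Injective pos)
    {G : SimpleGraph V} {x y : V} (hxy : G.Adj x y) (hx : ∀ w, G.Adj x w → pos w < pos x)
    (hdx : (G.neighborSet x).ncard ≤ Fintype.card κ)
    (hz : ∀ z, G.Adj x z → (G.neighborSet z).ncard < 2 * Fintype.card κ)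
    {c : Sym2 V → κ} (hc : Good pos (G.deleteEdges {s(x, y)}) c) :
    ∃ c' : Sym2 V → κ, Good pos G c' := by
  classical
  set H := G.deleteEdges {s(x, y)} with hH
  have hg : Valid pos H c (gd pos H c (fun _ _ => False)) := gd_valid hpos hc (by simp)
  refine kempe_fan (b := true) hxy hg (Or.inr ⟨rfl, hx y hxy, hx⟩) ?_ ?_
  · obtain ⟨α, hα⟩ := exists_miss H c x (lt_of_lt_of_le (nbr_del_ncard_left G hxy) hdx)
    exact ⟨α, fun w hw _ => hα w hw⟩
  · intro z hxz _
    obtain ⟨β, a, h⟩ := miss_some (z := z) c _ (lt_of_le_of_lt (nbr_del_ncard_le _ _ _) (hz z hxz))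
    refine ⟨β, a, fun h' => ?_, h⟩
    have := hx z hxz
    omega

/-- The main theorem on good colourings. -/
theorem good_exists [Finite V] [Fintype κ] [Nonempty κ] {pos : V → ℕ}
    (hpos : Function.Injective pos) : ∀ (n : ℕ) (G : SimpleGraph V), G.edgeSet.ncard ≤ n →
    (∀ v, (G.neighborSet v).ncard ≤ 2 * Fintype.card κ) →
    (∀ v, outd pos G v ≤ Fintype.card κ) →
    (∀ v u, G.Adj v u → pos u < pos v → outd pos G v = Fintype.card κ →
      (G.neighborSet u).ncard < 2 * Fintype.card κ) →
    ∃ c : Sym2 V → κ, Good pos G c := by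
  classical
  intro n
  induction n with
  | zero =>
    intro G hn _ _ _
    have h0 : G.edgeSet = ∅ := by
      rw [← Set.ncard_eq_zero (Set.toFinite _)]
      omega
    have hno : ∀ u v, ¬ G.Adj u v := by
      intro u v huv
      have : s(u, v) ∈ G.edgeSet := huv
      rw [h0] at this
      exact this.elim
    exact ⟨fun _ => Classical.arbitrary κ, fun v w _ h => absurd h (hno v w),
      fun v p _ _ h => absurd h (hno v p)⟩
  | succ n ih =>
    intro G hn hdeg hout hfull
    have hIH : ∀ x y, G.Adj x y → ∃ c : Sym2 V → κ, Good pos (G.deleteEdges {s(x, y)}) c := by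
      intro x y hxy
      refine ih _ (by have := edge_del_ncard G hxy; omega)
        (fun v => le_trans (nbr_del_ncard_le _ _ _) (hdeg v))
        (fun v => le_trans (outd_mono (del_le _ _) v) (hout v)) ?_
      intro v u hvu hlt hv
      have h1 := outd_mono (pos := pos) (del_le G s(x, y)) v
      have h2 := hout v
      exact lt_of_le_of_lt (nbr_del_ncard_le _ _ _)
        (hfull v u (adj_del.1 hvu).1 hlt (by omega))
    -- Step A
    have hA : ∀ x y, G.Adj x y → pos x < pos y → (∀ z, G.Adj x z → pos x < pos z →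
        (G.neighborSet z).ncard + outd pos G z < 2 * Fintype.card κ) →
        ∃ c' : Sym2 V → κ, Good pos G c' := by
      intro x y hxy hlt hz
      obtain ⟨c, hc⟩ := hIH x y hxy
      exact stepA hpos hxy hlt (hdeg x) hz hc
    by_cases hS : ∃ x, 2 * Fintype.card κ ≤ (G.neighborSet x).ncard + outd pos G x
    · obtain ⟨x, hx, hmax⟩ := Set.exists_max_image
        {x | 2 * Fintype.card κ ≤ (G.neighborSet x).ncard + outd pos G x} pos (Set.toFinite _) hS
      have hxS : 2 * Fintype.card κ ≤ (G.neighborSet x).ncard + outd pos G x := hx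
      by_cases hy : ∃ y, G.Adj x y ∧ pos x < pos y
      · obtain ⟨y, hxy, hlt⟩ := hy
        refine hA x y hxy hlt ?_
        intro z _ hz
        by_contra hcon
        have := hmax z (by
          show 2 * Fintype.card κ ≤ (G.neighborSet z).ncard + outd pos G z
          omega)
        omega
      · push Not at hy
        have hall : ∀ w, G.Adj x w → pos w < pos x := by
          intro w hw
          have h1 := hy w hw
          have h2 : pos x ≠ pos w := fun h => hw.ne (hpos h)
          omega
        have h1 : G.neighborSet x = {w | G.Adj x w ∧ pos w < pos x} := by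
          ext w
          exact ⟨fun hw => ⟨hw, hall w hw⟩, fun hw => hw.1⟩
        have h2 : outd pos G x = (G.neighborSet x).ncard := by
          unfold outd
          rw [h1]
        have h3 := hout x
        have h4 : outd pos G x = Fintype.card κ := by omega
        have h5 : 0 < Fintype.card κ := Fintype.card_pos
        obtain ⟨y, hy'⟩ : (G.neighborSet x).Nonempty := by
          rw [← Set.ncard_pos (Set.toFinite _)]
          omega
        obtain ⟨c, hc⟩ := hIH x y hy'
        exact stepB hpos hy' hall (by omega) (fun z hz => hfull x z hz (hall z hz) h4) hc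
    · push Not at hS
      by_cases he : ∃ x y, G.Adj x y
      · obtain ⟨x, y, hxy⟩ := he
        have hne : pos x ≠ pos y := fun h => hxy.ne (hpos h)
        rcases lt_or_gt_of_ne hne with h | h
        · exact hA x y hxy h (fun z _ _ => hS z)
        · exact hA y x hxy.symm h (fun z _ _ => hS z)
      · push Not at he
        exact ⟨fun _ => Classical.arbitrary κ, fun v w _ h => absurd h (he v w),
          fun v p _ _ h => absurd h (he v p)⟩

/-- A good colouring gives a decomposition into linear forests. -/
lemma Good.coveredBy [Finite V] {pos : V → ℕ} (hpos : Function.Injective pos) {G : SimpleGraph V}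
    {q : ℕ} {c : Sym2 V → Fin q} (hc : Good pos G c) : CoveredBy G q := by
  classical
  let F : Fin q → SimpleGraph V := fun i =>
    { Adj := fun v w => G.Adj v w ∧ c s(v, w) = i
      symm := ⟨fun v w h => ⟨h.1.symm, by rw [Sym2.eq_swap]; exact h.2⟩⟩
      loopless := ⟨fun v h => h.1.ne rfl⟩ }
  have hF : ∀ i v w, (F i).Adj v w ↔ G.Adj v w ∧ c s(v, w) = i := fun i v w => Iff.rfl
  refine ⟨F, fun i => ⟨?_, fun v => ?_⟩, ?_⟩
  · refine acyclic_of_pos (F i) pos ?_
    intro v w w' h h' hw hw'
    rw [hF] at h h'
    have h1 : pos v ≠ pos w := fun e => h.1.ne (hpos e)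
    have h2 : pos v ≠ pos w' := fun e => h'.1.ne (hpos e)
    exact hc.1 v w w' h.1 h'.1 (by omega) (by omega) (h.2.trans h'.2.symm)
  · by_contra hcon
    have h3 : 2 < ((F i).neighborSet v).ncard := by omega
    rw [Set.two_lt_ncard_iff (Set.toFinite _)] at h3
    obtain ⟨p, q', r, hp, hq, hr, hpq, hpr, hqr⟩ := h3
    have hp' : G.Adj v p ∧ c s(v, p) = i := hp
    have hq' : G.Adj v q' ∧ c s(v, q') = i := hq
    have hr' : G.Adj v r ∧ c s(v, r) = i := hr
    rcases hc.2 v p q' r hp'.1 hq'.1 hr'.1 (hp'.2.trans hq'.2.symm) (hq'.2.trans hr'.2.symm)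
      with h | h | h
    · exact hpq h
    · exact hqr h
    · exact hpr h
  · ext v w
    simp only [iSup_adj, hF]
    exact ⟨fun ⟨_, h⟩ => h.1, fun h => ⟨_, h, rfl⟩⟩

/-- **Main theorem.** A `k`-degenerate graph of maximum degree `Δ` is the union of `q` linear forests
if `k < q` and `Δ ≤ 2 q`, or `k ≤ q` and `Δ < 2 q`. -/
theorem covered_of_degen [Finite V] (G : SimpleGraph V) (k q : ℕ) (hq : 0 < q) (hG : Degen G k)
    (h : (k < q ∧ ∀ v, (G.neighborSet v).ncard ≤ 2 * q) ∨
      (k ≤ q ∧ ∀ v, (G.neighborSet v).ncard < 2 * q)) : CoveredBy G q := by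
  classical
  obtain ⟨pos, hpos, hout⟩ := exists_order G k hG
  have hne : Nonempty (Fin q) := ⟨⟨0, hq⟩⟩
  have hout' : ∀ v, outd pos G v ≤ k := hout
  obtain ⟨c, hc⟩ := good_exists (κ := Fin q) hpos _ G le_rfl
    (by
      intro v
      rw [Fintype.card_fin]
      rcases h with h | h
      · exact h.2 v
      · exact (h.2 v).le)
    (by
      intro v
      rw [Fintype.card_fin]
      have := hout' v
      rcases h with h | h
      · omega
      · omega)
    (by
      intro v u _ _ hv
      rw [Fintype.card_fin] at hv ⊢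
      have := hout' v
      rcases h with h | h
      · omega
      · exact h.2 u)
  exact hc.coveredBy hpos

end Pool.Agent.Helper75_Viz
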